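import Mathlib

/-!
# Koszul filtrations give linear resolutions
-/

set_option autoImplicit false

namespace Pool.Agent.Q164.KZ

/-- the vector `D w` -/
def mulV {A κ ι : Type} [CommRing A] [Fintype ι] (D : κ → ι → A) (w : ι → A) : κ → A :=
  fun k => ∑ i, D k i * w i

/-- the kernel of `D` is the image of `D'` -/
def Exact {A κ ι ι' : Type} [CommRing A] [Fintype ι] [Fintype ι'] (D : κ → ι → A)
    (D' : ι → ι' → A) : Prop := ∀ v : ι → A, mulV D v = 0 ↔ ∃ w, v = mulV D' w

/-- A linear free resolution of `A / J` (`J` is generated by the entries of the first row). -/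
def HasLinearResolution {A : Type} [CommRing A] (L : Set A) (J : Ideal A) : Prop :=
  ∃ (ι : ℕ → Type) (_ : ∀ n, Fintype (ι n)) (d : ι 0 → A) (D : ∀ n, ι n → ι (n + 1) → A),
    (∀ i, d i ∈ L) ∧ (∀ n i j, D n i j ∈ L) ∧ Ideal.span (Set.range d) = J ∧
    Exact (fun (_ : Unit) => d) (D 0) ∧ ∀ n, Exact (D n) (D (n + 1))

/-- linear forms and the projections to degree one and two -/
structure LinData (A : Type) [CommRing A] where
  /-- the linear forms -/
  L : AddSubgroup A
  /-- degree one part -/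
  p1 : A →+ A
  /-- degree two part -/
  p2 : A →+ A
  p1_mem : ∀ a, p1 a ∈ L
  p1_of_mem : ∀ a ∈ L, p1 a = a
  p2_mul : ∀ a ∈ L, ∀ b, p2 (a * b) = a * p1 b

/-- a Koszul filtration, indexed by `T` -/
structure Filt (A : Type) [CommRing A] (P : LinData A) where
  /-- the index set -/
  T : Type
  /-- the ideals -/
  I : T → Ideal A
  /-- the rank -/
  rk : T → ℕ
  step : ∀ t, I t = ⊥ ∨ ∃ s c x, rk s < rk t ∧ x ∈ P.L ∧ I t = I s ⊔ Ideal.span {x} ∧
    ∀ a, a ∈ I c ↔ x * a ∈ I s

variable {A : Type} [CommRing A] {P : LinData A} (Φ : Filt A P)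

/-- generators of the ideals of the filtration -/
inductive Row : Φ.T → (ι : Type) → Fintype ι → (ι → A) → Prop
  | bot (t : Φ.T) (h : Φ.I t = ⊥) : Row t Empty inferInstance Empty.elim
  | cons (t s c : Φ.T) (x : A) (ι : Type) (hι : Fintype ι) (d : ι → A) (hx : x ∈ P.L)
      (h1 : Φ.I t = Φ.I s ⊔ Ideal.span {x}) (h2 : ∀ a, a ∈ Φ.I c ↔ x * a ∈ Φ.I s)
      (hd : Row s ι hι d) : Row t (ι ⊕ Unit) inferInstance (Sum.elim d fun _ => x)

lemma exists_row : ∀ (n : ℕ) (t : Φ.T), Φ.rk t = n → ∃ ι hι d, Row Φ t ι hι d := by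
  intro n
  induction n using Nat.strong_induction_on with
  | _ n ih =>
    intro t ht
    rcases Φ.step t with h | ⟨s, c, x, h1, h2, h3, h4⟩
    · exact ⟨_, _, _, Row.bot t h⟩
    · obtain ⟨ι, hι, d, hd⟩ := ih (Φ.rk s) (by omega) s rfl
      exact ⟨_, _, _, Row.cons t s c x ι hι d h2 h3 h4 hd⟩

lemma Row.mem {t : Φ.T} {ι : Type} {hι : Fintype ι} {d : ι → A} (h : Row Φ t ι hι d) :
    ∀ i, d i ∈ P.L := by
  induction h with
  | bot t h => intro i; exact i.elim
  | cons t s c x ι hι d hx h1 h2 hd ih =>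
    intro i
    rcases i with i | i
    · exact ih i
    · exact hx

lemma Row.span {t : Φ.T} {ι : Type} {hι : Fintype ι} {d : ι → A} (h : Row Φ t ι hι d) :
    Ideal.span (Set.range d) = Φ.I t := by
  induction h with
  | bot t h => rw [h]; simp
  | cons t s c x ι hι d hx h1 h2 hd ih =>
    rw [h1, ← ih, ← Ideal.span_union]
    congr 1
    ext a
    constructor
    · rintro ⟨i | i, rfl⟩
      · left; exact ⟨i, rfl⟩
      · right; rfl
    · rintro (⟨i, rfl⟩ | h)
      · exact ⟨Sum.inl i, rfl⟩
      · rw [Set.mem_singleton_iff] at h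
        exact ⟨Sum.inr (), h.symm⟩

/-- membership in the ideal of a row -/
lemma Row.mem_iff {t : Φ.T} {ι : Type} {hι : Fintype ι} {d : ι → A} (h : Row Φ t ι hι d) (a : A) :
    a ∈ Φ.I t ↔ ∃ w : ι → A, a = ∑ i, d i * w i := by
  rw [← h.span, Ideal.mem_span_range_iff_exists_fun]
  constructor
  · rintro ⟨c, hc⟩
    exact ⟨c, by rw [← hc]; exact Finset.sum_congr rfl fun i _ => mul_comm _ _⟩
  · rintro ⟨c, hc⟩
    exact ⟨c, by rw [hc]; exact Finset.sum_congr rfl fun i _ => mul_comm _ _⟩

/-- the block matrix `[[D, U], [0, E]]` -/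
def blk {κ κ' ι ι' : Type} (D : κ → ι → A) (U : κ → ι' → A) (E : κ' → ι' → A) :
    κ ⊕ κ' → ι ⊕ ι' → A :=
  Sum.elim (fun k => Sum.elim (D k) (U k)) (fun k => Sum.elim (fun _ => 0) (E k))

lemma mulV_blk {κ κ' ι ι' : Type} [Fintype ι] [Fintype ι'] (D : κ → ι → A) (U : κ → ι' → A)
    (E : κ' → ι' → A) (w : ι → A) (y : ι' → A) :
    mulV (blk D U E) (Sum.elim w y) = Sum.elim (mulV D w + mulV U y) (mulV E y) := by
  funext k
  rcases k with k | k
  · show ∑ i, _ = _
    rw [Fintype.sum_sum_type]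
    rfl
  · show ∑ i, _ = _
    rw [Fintype.sum_sum_type]
    simp only [blk, Sum.elim_inr, Sum.elim_inl, zero_mul, Finset.sum_const_zero, zero_add]
    rfl

/-- the matrices that occur in the resolutions -/
inductive Good : (κ ι : Type) → Fintype ι → (κ → ι → A) → Prop
  | nil (κ : Type) : Good κ Empty inferInstance (fun _ => Empty.elim)
  | row (t : Φ.T) (ι : Type) (hι : Fintype ι) (d : ι → A) (hd : Row Φ t ι hι d) :
      Good Unit ι hι (fun _ => d)
  | block (κ κ' ι ι' : Type) (hι : Fintype ι) (hι' : Fintype ι') (D : κ → ι → A) (U : κ → ι' → A)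
      (E : κ' → ι' → A) (hD : Good κ ι hι D) (hE : Good κ' ι' hι' E)
      (hU : ∀ k i, U k i ∈ P.L)
      (hstar : ∀ y : ι' → A, mulV E y = 0 → ∃ w : ι → A, mulV D w + mulV U y = 0) :
      Good (κ ⊕ κ') (ι ⊕ ι') inferInstance (blk D U E)

lemma Good.mem {κ ι : Type} {hι : Fintype ι} {D : κ → ι → A} (h : Good Φ κ ι hι D) :
    ∀ k i, D k i ∈ P.L := by
  induction h with
  | nil κ => intro _ i; exact i.elim
  | row t ι hι d hd => intro _ i; exact hd.mem Φ i
  | block κ κ' ι ι' hι hι' D U E hD hE hU hstar ih1 ih2 =>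
    intro k i
    rcases k with k | k <;> rcases i with i | i
    · exact ih1 k i
    · exact hU k i
    · exact P.L.zero_mem
    · exact ih2 k i

lemma mulV_p2 {κ ι : Type} [Fintype ι] {D : κ → ι → A} (hD : ∀ k i, D k i ∈ P.L) (w : ι → A)
    (k : κ) : P.p2 (mulV D w k) = mulV D (fun i => P.p1 (w i)) k := by
  unfold mulV
  rw [map_sum]
  exact Finset.sum_congr rfl fun i _ => P.p2_mul _ (hD k i) _

/-- lifting in degree one -/
lemma lift_deg {κ ι ι' : Type} [Fintype ι] [Fintype ι'] {D : κ → ι → A} {U : κ → ι' → A}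
    (hD : ∀ k i, D k i ∈ P.L) (hU : ∀ k i, U k i ∈ P.L) {y : ι' → A} (hy : ∀ i, y i ∈ P.L)
    (h : ∃ w : ι → A, mulV D w + mulV U y = 0) :
    ∃ w : ι → A, (∀ i, w i ∈ P.L) ∧ mulV D w + mulV U y = 0 := by
  obtain ⟨w, hw⟩ := h
  refine ⟨fun i => P.p1 (w i), fun i => P.p1_mem _, ?_⟩
  funext k
  have h1 := congrArg P.p2 (congrFun hw k)
  rw [Pi.add_apply, map_add, mulV_p2 hD, mulV_p2 hU, Pi.zero_apply, map_zero] at h1
  have h2 : (fun i => P.p1 (y i)) = y := by
    funext i
    exact P.p1_of_mem _ (hy i)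
  rw [h2] at h1
  exact h1

lemma mulV_add {κ ι : Type} [Fintype ι] (D : κ → ι → A) (v w : ι → A) :
    mulV D (v + w) = mulV D v + mulV D w := by
  funext k
  unfold mulV
  rw [Pi.add_apply, ← Finset.sum_add_distrib]
  exact Finset.sum_congr rfl fun i _ => by rw [Pi.add_apply]; ring

lemma mulV_neg {κ ι : Type} [Fintype ι] (D : κ → ι → A) (v : ι → A) :
    mulV D (-v) = -mulV D v := by
  funext k
  unfold mulV
  rw [Pi.neg_apply, ← Finset.sum_neg_distrib]
  exact Finset.sum_congr rfl fun i _ => by rw [Pi.neg_apply]; ring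

lemma mulV_zero {κ ι : Type} [Fintype ι] (D : κ → ι → A) :
    mulV D (0 : ι → A) = 0 := by
  funext k
  unfold mulV
  simp

/-- composition -/
lemma mulV_mulV {κ ι ι' : Type} [Fintype ι] [Fintype ι'] (D : κ → ι → A) (D' : ι → ι' → A)
    (y : ι' → A) : mulV D (mulV D' y) = mulV (fun k j => mulV D (fun i => D' i j) k) y := by
  funext k
  unfold mulV
  simp only [Finset.mul_sum, Finset.sum_mul]
  rw [Finset.sum_comm]
  exact Finset.sum_congr rfl fun j _ => Finset.sum_congr rfl fun i _ => by ring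

/-- a single column -/
lemma mulV_single {κ ι : Type} [Fintype ι] [DecidableEq ι] (D : κ → ι → A) (j : ι) :
    mulV D (Pi.single j 1) = fun k => D k j := by
  funext k
  unfold mulV
  rw [Finset.sum_eq_single j]
  · rw [Pi.single_eq_same, mul_one]
  · intro i _ hi
    rw [Pi.single_eq_of_ne hi, mul_zero]
  · intro h
    exact absurd (Finset.mem_univ j) h

/-- The general step for a block matrix. -/
lemma block_step {κ κ' ι ι' : Type} {hι : Fintype ι} {hι' : Fintype ι'} {D : κ → ι → A}
    {U : κ → ι' → A} {E : κ' → ι' → A} (hDm : ∀ k i, D k i ∈ P.L) (hU : ∀ k i, U k i ∈ P.L)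
    (hstar : ∀ y : ι' → A, mulV E y = 0 → ∃ w : ι → A, mulV D w + mulV U y = 0)
    (hD : ∃ (μ : Type) (hμ : Fintype μ) (D' : ι → μ → A), Good Φ ι μ hμ D' ∧ Exact D D')
    (hE : ∃ (μ : Type) (hμ : Fintype μ) (E' : ι' → μ → A), Good Φ ι' μ hμ E' ∧ Exact E E') :
    ∃ (μ : Type) (hμ : Fintype μ) (F' : ι ⊕ ι' → μ → A), Good Φ (ι ⊕ ι') μ hμ F' ∧
      Exact (blk D U E) F' := by
  classical
  obtain ⟨μ, hμ, D', hD', hDe⟩ := hD
  obtain ⟨ν, hν, E', hE', hEe⟩ := hE
  -- the columns of `U'`
  have hcol : ∀ j : ν, ∃ w : ι → A, (∀ i, w i ∈ P.L) ∧ mulV D w + mulV U (fun i => E' i j) = 0 := by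
    intro j
    apply lift_deg hDm hU (fun i => hE'.mem Φ i j)
    apply hstar
    rw [hEe]
    exact ⟨Pi.single j 1, (mulV_single E' j).symm⟩
  choose W hWL hW using hcol
  set U' : ι → ν → A := fun i j => W j i with hU'
  have hcomp : ∀ z : ν → A, mulV D (mulV U' z) + mulV U (mulV E' z) = 0 := by
    intro z
    rw [mulV_mulV, mulV_mulV]
    funext k
    rw [Pi.add_apply]
    unfold mulV
    rw [← Finset.sum_add_distrib]
    apply Finset.sum_eq_zero
    intro j _
    have := congrFun (hW j) k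
    rw [Pi.add_apply] at this
    unfold mulV at this
    rw [← add_mul, this, Pi.zero_apply, zero_mul]
  refine ⟨μ ⊕ ν, inferInstance, blk D' U' E', Good.block _ _ _ _ hμ hν D' U' E' hD' hE'
    (fun i j => hWL j i) ?_, ?_⟩
  · intro z hz
    have h1 := hcomp z
    rw [hz, mulV_zero, add_zero, hDe] at h1
    obtain ⟨w, hw⟩ := h1
    refine ⟨-w, ?_⟩
    rw [mulV_neg, ← hw, neg_add_cancel]
  · intro v
    obtain ⟨w, y, rfl⟩ : ∃ w y, v = Sum.elim w y :=
      ⟨fun i => v (Sum.inl i), fun i => v (Sum.inr i), by funext i; rcases i with i | i <;> rfl⟩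
    rw [mulV_blk]
    constructor
    · intro h
      have e1 : mulV D w + mulV U y = 0 := by
        funext k; exact congrFun h (Sum.inl k)
      have e2 : mulV E y = 0 := by
        funext k; exact congrFun h (Sum.inr k)
      rw [hEe] at e2
      obtain ⟨z, rfl⟩ := e2
      have e3 : mulV D (w + -(mulV U' z)) = 0 := by
        rw [mulV_add, mulV_neg]
        have := hcomp z
        have e4 : mulV D (mulV U' z) = -mulV U (mulV E' z) := eq_neg_of_add_eq_zero_left this
        rw [e4, neg_neg]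
        exact e1
      rw [hDe] at e3
      obtain ⟨u, hu⟩ := e3
      refine ⟨Sum.elim u z, ?_⟩
      rw [mulV_blk]
      congr 1
      rw [← hu]
      abel
    · rintro ⟨s, hs⟩
      obtain ⟨u, z, rfl⟩ : ∃ u z, s = Sum.elim u z :=
        ⟨fun i => s (Sum.inl i), fun i => s (Sum.inr i), by
          funext i; rcases i with i | i <;> rfl⟩
      rw [mulV_blk] at hs
      have e1 : w = mulV D' u + mulV U' z := by
        funext i; exact congrFun hs (Sum.inl i)
      have e2 : y = mulV E' z := by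
        funext i; exact congrFun hs (Sum.inr i)
      subst e1
      subst e2
      have e3 : mulV D (mulV D' u) = 0 := by
        rw [hDe]; exact ⟨u, rfl⟩
      have e4 : mulV E (mulV E' z) = 0 := by
        rw [hEe]; exact ⟨z, rfl⟩
      rw [mulV_add, e3, zero_add, hcomp, e4]
      funext k
      rcases k with k | k <;> rfl

/-- The step for a row. -/
lemma row_step {t : Φ.T} {ι : Type} {hι : Fintype ι} {d : ι → A} (h : Row Φ t ι hι d) :
    ∃ (μ : Type) (hμ : Fintype μ) (D' : ι → μ → A), Good Φ ι μ hμ D' ∧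
      Exact (fun (_ : Unit) => d) D' := by
  classical
  induction h with
  | bot t h =>
    refine ⟨Empty, inferInstance, fun _ => Empty.elim, Good.nil Empty, ?_⟩
    intro v
    constructor
    · intro _
      exact ⟨0, funext fun i => i.elim⟩
    · intro _
      funext k
      simp [mulV]
  | cons t s c x ι hι d hx h1 h2 hd ih =>
    obtain ⟨μ, hμ, D', hD', hDe⟩ := ih
    obtain ⟨ν, hν, e, he⟩ := exists_row Φ _ c rfl
    have hcol : ∀ j : ν, ∃ w : ι → A, (∀ i, w i ∈ P.L) ∧
        mulV (fun (_ : Unit) => d) w + mulV (fun (_ : Unit) (_ : Unit) => x) (fun _ => e j) = 0 := by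
      intro j
      apply lift_deg (fun _ i => hd.mem Φ i) (fun _ _ => hx) (fun _ => he.mem Φ j)
      have h3 : e j ∈ Φ.I c := by
        rw [← he.span]
        exact Ideal.subset_span ⟨j, rfl⟩
      rw [h2, hd.mem_iff] at h3
      obtain ⟨w, hw⟩ := h3
      refine ⟨-w, ?_⟩
      rw [mulV_neg]
      funext k
      simp only [Pi.add_apply, Pi.neg_apply, mulV, Pi.zero_apply, Finset.univ_unique,
        Finset.sum_singleton]
      rw [← hw, neg_add_cancel]
    choose W hWL hW using hcol
    set U : ι → ν → A := fun i j => W j i with hU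
    have hW' : ∀ j, ∑ i, d i * U i j = -(x * e j) := by
      intro j
      have := congrFun (hW j) ()
      simp only [Pi.add_apply, mulV, Pi.zero_apply, Finset.univ_unique,
        Finset.sum_singleton] at this
      exact eq_neg_of_add_eq_zero_left this
    have hcomp : ∀ z : ν → A, mulV (fun (_ : Unit) => d) (mulV U z) =
        fun _ => -(x * ∑ j, e j * z j) := by
      intro z
      rw [mulV_mulV]
      funext k
      show ∑ j, (∑ i, d i * U i j) * z j = _
      rw [Finset.mul_sum, ← Finset.sum_neg_distrib]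
      exact Finset.sum_congr rfl fun j _ => by rw [hW' j]; ring
    refine ⟨μ ⊕ ν, inferInstance, blk D' U (fun (_ : Unit) => e),
      Good.block _ _ _ _ hμ hν D' U _ hD' (Good.row c ν hν e he) (fun i j => hWL j i) ?_, ?_⟩
    · intro y hy
      have h3 : ∑ j, e j * y j = 0 := congrFun hy ()
      have h4 : mulV (fun (_ : Unit) => d) (mulV U y) = 0 := by
        rw [hcomp, h3]
        funext k
        simp
      rw [hDe] at h4
      obtain ⟨w, hw⟩ := h4
      refine ⟨-w, ?_⟩
      rw [mulV_neg, ← hw, neg_add_cancel]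
    · intro v
      obtain ⟨w, a, rfl⟩ : ∃ (w : ι → A) (a : A), v = Sum.elim w (fun (_ : Unit) => a) :=
        ⟨fun i => v (Sum.inl i), v (Sum.inr ()), by funext i; rcases i with i | i <;> rfl⟩
      have hrow : mulV (fun (_ : Unit) => Sum.elim d fun (_ : Unit) => x)
          (Sum.elim w (fun (_ : Unit) => a)) = fun _ => ∑ i, d i * w i + x * a := by
        funext k
        show ∑ i, _ = _
        rw [Fintype.sum_sum_type]
        simp
      rw [hrow]
      constructor
      · intro h
        have h3 : ∑ i, d i * w i + x * a = 0 := congrFun h ()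
        have h4 : x * a ∈ Φ.I s := by
          rw [hd.mem_iff]
          refine ⟨-w, ?_⟩
          simp only [Pi.neg_apply, mul_neg, Finset.sum_neg_distrib]
          exact eq_neg_of_add_eq_zero_right h3
        rw [← h2, he.mem_iff] at h4
        obtain ⟨y, hy⟩ := h4
        have h5 : mulV (fun (_ : Unit) => d) (w + -(mulV U y)) = 0 := by
          rw [mulV_add, mulV_neg, hcomp, ← hy]
          funext k
          show ∑ i, d i * w i + - -(x * a) = 0
          rw [neg_neg, h3]
        rw [hDe] at h5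
        obtain ⟨u, hu⟩ := h5
        refine ⟨Sum.elim u y, ?_⟩
        rw [mulV_blk]
        congr 1
        · rw [← hu]; abel
        · funext k
          exact hy
      · rintro ⟨z, hz⟩
        obtain ⟨u, y, rfl⟩ : ∃ u y, z = Sum.elim u y :=
          ⟨fun i => z (Sum.inl i), fun i => z (Sum.inr i), by
            funext i; rcases i with i | i <;> rfl⟩
        rw [mulV_blk] at hz
        have e1 : w = mulV D' u + mulV U y := by
          funext i; exact congrFun hz (Sum.inl i)
        have e2 : a = ∑ j, e j * y j := congrFun hz (Sum.inr ())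
        have e3 : mulV (fun (_ : Unit) => d) (mulV D' u) = 0 := by
          rw [hDe]; exact ⟨u, rfl⟩
        have e4 : mulV (fun (_ : Unit) => d) w = fun _ => -(x * a) := by
          rw [e1, mulV_add, e3, zero_add, hcomp, e2]
        funext k
        have e5 : ∑ i, d i * w i = -(x * a) := congrFun e4 ()
        rw [e5, neg_add_cancel]
        rfl

lemma good_step {κ ι : Type} {hι : Fintype ι} {D : κ → ι → A} (h : Good Φ κ ι hι D) :
    ∃ (μ : Type) (hμ : Fintype μ) (D' : ι → μ → A), Good Φ ι μ hμ D' ∧ Exact D D' := by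
  induction h with
  | nil κ =>
    refine ⟨Empty, inferInstance, fun _ => Empty.elim, Good.nil Empty, ?_⟩
    intro v
    constructor
    · intro _
      exact ⟨0, funext fun i => i.elim⟩
    · intro _
      funext k
      simp [mulV]
  | row t ι hι d hd => exact row_step Φ hd
  | block κ κ' ι ι' hι hι' D U E hD hE hU hstar ih1 ih2 =>
    exact block_step Φ (hD.mem Φ) hU hstar ih1 ih2

/-- a stage of the resolution -/
structure Stage where
  /-- rows -/
  κ : Type
  /-- columns -/
  ι : Type
  /-- finiteness -/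
  fι : Fintype ι
  /-- the matrix -/
  D : κ → ι → A
  /-- it is good -/
  good : Good Φ κ ι fι D

/-- the next stage -/
noncomputable def Stage.next (s : Stage Φ) : Stage Φ :=
  ⟨s.ι, (good_step Φ s.good).choose, (good_step Φ s.good).choose_spec.choose,
    (good_step Φ s.good).choose_spec.choose_spec.choose,
    (good_step Φ s.good).choose_spec.choose_spec.choose_spec.1⟩

lemma Stage.next_exact (s : Stage Φ) :
    letI := s.fι
    letI := s.next.fι
    Exact s.D s.next.D :=
  (good_step Φ s.good).choose_spec.choose_spec.choose_spec.2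

/-- **Koszul filtrations give linear resolutions.** -/
theorem hasLinearResolution (t : Φ.T) : HasLinearResolution (P.L : Set A) (Φ.I t) := by
  obtain ⟨ι, hι, d, hd⟩ := exists_row Φ _ t rfl
  let s0 : Stage Φ := ⟨Unit, ι, hι, fun _ => d, Good.row t ι hι d hd⟩
  let S : ℕ → Stage Φ := fun n => Nat.rec s0 (fun _ s => s.next) n
  refine ⟨fun n => (S n).ι, fun n => (S n).fι, d, fun n => (S (n + 1)).D, hd.mem Φ,
    fun n i j => (S (n + 1)).good.mem Φ i j, hd.span Φ, ?_, fun n => ?_⟩
  · exact (S 0).next_exact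
  · exact (S (n + 1)).next_exact

end Pool.Agent.Q164.KZ
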