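import Mathlib
import Pool.Agent.Q164.KZ.Res

/-!
# Building sets, nested sets, Chow rings of matroids, Koszul algebras
-/

set_option autoImplicit false

namespace Pool.Agent.Q164.KZ

open MvPolynomial

/-- The maximal elements of `G` below `F`. -/
def factors {α : Type} (G : Set (Set α)) (F : Set α) : Set (Set α) :=
  {X | Maximal (fun Y => Y ∈ G ∧ Y ⊆ F) X}

/-- `G` is a building set of the lattice of flats of the (loopless) matroid `M`: it consists of
nonempty flats, and for each nonempty flat `F` the map that sends a family of flats `h X ⊆ X`,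
one for each maximal element `X` of `G` below `F`, to its join, is an isomorphism of posets from
the product of the intervals `[∅, X]` onto the interval `[∅, F]`. -/
def IsBuildingSet {α : Type} (M : Matroid α) (G : Set (Set α)) : Prop :=
  (∀ X ∈ G, M.IsFlat X ∧ X.Nonempty) ∧
  ∀ F, M.IsFlat F → F.Nonempty →
    (∀ H, M.IsFlat H → H ⊆ F → ∃ h : Set α → Set α,
      (∀ X ∈ factors G F, M.IsFlat (h X) ∧ h X ⊆ X) ∧
        M.closure (⋃ X ∈ factors G F, h X) = H) ∧
    ∀ h h' : Set α → Set α, (∀ X ∈ factors G F, M.IsFlat (h X) ∧ h X ⊆ X) →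
      (∀ X ∈ factors G F, M.IsFlat (h' X) ∧ h' X ⊆ X) →
      ((M.closure (⋃ X ∈ factors G F, h X) ⊆ M.closure (⋃ X ∈ factors G F, h' X)) ↔
        ∀ X ∈ factors G F, h X ⊆ h' X)

/-- A set `S` of elements of `G` is nested if the join of any at least two pairwise incomparable
elements of `S` is not in `G`. -/
def IsNested {α : Type} (M : Matroid α) (G : Set (Set α)) (S : Set (Set α)) : Prop :=
  ∀ T ⊆ S, T.Nontrivial → T.Pairwise (fun X Y => ¬ X ⊆ Y) → M.closure (⋃₀ T) ∉ G

/-- The ideal of the Chow ring: the monomials of the non-nested sets, and for each atom, that is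
for each element `e` of the ground set, the sum of the variables of the `X ∈ G` containing it. -/
noncomputable def chowIdeal {α : Type} (M : Matroid α) (G : Set (Set α)) :
    Ideal (MvPolynomial G ℚ) :=
  Ideal.span ({f | ∃ S : Finset G, ¬ IsNested M G ((fun X : G => (X : Set α)) '' (S : Set G)) ∧
      f = ∏ X ∈ S, X_ X} ∪
    {f | ∃ e ∈ M.E, f = ∑ᶠ X : {X : G // e ∈ (X : Set α)}, X_ X.1})
where
  /-- the variables -/
  X_ (X : G) : MvPolynomial G ℚ := MvPolynomial.X X

/-- The Chow ring `D(M, G)`. -/
abbrev ChowRing {α : Type} (M : Matroid α) (G : Set (Set α)) : Type :=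
  MvPolynomial G ℚ ⧸ chowIdeal M G

/-- The part of degree `n` of the Chow ring: the image of the homogeneous polynomials of
degree `n`. -/
noncomputable def chowPart {α : Type} (M : Matroid α) (G : Set (Set α)) (n : ℕ) :
    Submodule ℚ (ChowRing M G) :=
  (homogeneousSubmodule G ℚ n).map (Ideal.Quotient.mkₐ ℚ (chowIdeal M G)).toLinearMap

/-- The Chow ring is Koszul: its residue field (the quotient by the ideal generated by the
elements of degree one) has a linear free resolution: a resolution by free modules of finite
rank all of whose maps are given by matrices with entries of degree one. -/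
def IsKoszulChow {α : Type} (M : Matroid α) (G : Set (Set α)) : Prop :=
  HasLinearResolution (chowPart M G 1 : Set (ChowRing M G))
    (Ideal.span (chowPart M G 1 : Set (ChowRing M G)))

end Pool.Agent.Q164.KZ
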