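import Mathlib
import Pool.Agent.Q164.KZ.Defs

/-!
# Building sets of Boolean lattices
-/

set_option autoImplicit false

namespace Pool.Agent.Q164.KZ

open Set

/-- the free matroid -/
abbrev fr (α : Type) : Matroid α := Matroid.freeOn univ

lemma fr_closure {α : Type} (X : Set α) : (fr α).closure X = X := by
  rw [Matroid.freeOn_closure_eq, inter_univ]

lemma fr_isFlat {α : Type} (X : Set α) : (fr α).IsFlat X := by
  rw [Matroid.isFlat_iff_closure_eq]
  exact fr_closure X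

lemma fr_loopless {α : Type} : (fr α).Loopless := by
  rw [Matroid.loopless_iff_forall_not_isLoop]
  intro e _
  exact Matroid.freeOn_not_isLoop _ _

theorem isBuildingSet_fr {α : Type} [Finite α] (G : Set (Set α)) (h0 : ∀ X ∈ G, X.Nonempty)
    (h1 : ∀ a, {a} ∈ G) (h2 : ∀ X ∈ G, ∀ Y ∈ G, (X ∩ Y).Nonempty → X ∪ Y ∈ G) :
    IsBuildingSet (fr α) G := by
  refine ⟨fun X hX => ⟨fr_isFlat X, h0 X hX⟩, ?_⟩
  intro F _ _
  have hcov : ∀ a ∈ F, ∃ X ∈ factors G F, a ∈ X := by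
    intro a ha
    obtain ⟨X, hX, hX'⟩ := (Set.toFinite {Y : Set α | Y ∈ G ∧ Y ⊆ F}).exists_le_maximal
      (a := ({a} : Set α)) ⟨h1 a, singleton_subset_iff.2 ha⟩
    exact ⟨X, hX', hX rfl⟩
  have hdis : ∀ X ∈ factors G F, ∀ Y ∈ factors G F, ∀ a ∈ X, a ∈ Y → X = Y := by
    intro X hX' Y hY' a ha hb
    have hX : Maximal (fun Y => Y ∈ G ∧ Y ⊆ F) X := hX'
    have hY : Maximal (fun Y => Y ∈ G ∧ Y ⊆ F) Y := hY'
    have h3 : X ∪ Y ∈ G ∧ X ∪ Y ⊆ F :=
      ⟨h2 X hX.prop.1 Y hY.prop.1 ⟨a, ha, hb⟩, union_subset hX.prop.2 hY.prop.2⟩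
    have e1 : X = X ∪ Y := hX.eq_of_le h3 subset_union_left
    have e2 : Y = X ∪ Y := hY.eq_of_le h3 subset_union_right
    exact e1.trans e2.symm
  refine ⟨?_, ?_⟩
  · intro H _ hH
    refine ⟨fun X => H ∩ X, fun X _ => ⟨fr_isFlat _, inter_subset_right⟩, ?_⟩
    rw [fr_closure]
    ext a
    simp only [mem_iUnion, mem_inter_iff, exists_prop]
    constructor
    · rintro ⟨X, _, h, _⟩
      exact h
    · intro ha
      obtain ⟨X, hX, hX'⟩ := hcov a (hH ha)
      exact ⟨X, hX, ha, hX'⟩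
  · intro h h' hh hh'
    rw [fr_closure, fr_closure]
    constructor
    · intro hs X hX a ha
      have h3 : a ∈ ⋃ X ∈ factors G F, h' X := by
        apply hs
        simp only [mem_iUnion]
        exact ⟨X, hX, ha⟩
      simp only [mem_iUnion] at h3
      obtain ⟨Y, hY, hY'⟩ := h3
      have : X = Y := hdis X hX Y hY a ((hh X hX).2 ha) ((hh' Y hY).2 hY')
      subst this
      exact hY'
    · intro hs
      apply iUnion₂_mono
      exact hs

end Pool.Agent.Q164.KZ
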