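import Mathlib
import Pool.Agent.Q164.KZ.Tab

/-!
# The finite checks
-/

set_option autoImplicit false

namespace Pool.Agent.Q164.KZ.Tab

/-- the mask of a vertex -/
def m (k : ℕ) : ℕ := ms.getD k 0

/-- the neighbours -/
def adj (k : ℕ) : ℕ := adjs.getD k 0

/-- the vertices containing an element -/
def tau (a : ℕ) : ℕ := taus.getD a 0

/-- sum of lists -/
def addL : List ℕ → List ℕ → List ℕ
  | [], b => b
  | a :: s, [] => a :: s
  | a :: s, b :: t => (a + b) :: addL s t

/-- the relation between the three members of an exact sequence -/
def tri (J A C : ℕ × List ℕ × (ℕ × ℕ × ℕ) × (ℕ × ℕ × ℕ)) (w : ℕ) : Bool :=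
  decide (w < 18) && ((A.1 ||| 2 ^ w) == J.1) && !(A.1.testBit w) && (C.1 == (J.1 &&& adj w)) &&
    (J.2.1 == addL A.2.1 (0 :: C.2.1))

/-- leaf -/
def leaf (W : ℕ) : Bool :=
  (List.range 18).all fun k => !(W.testBit k) || (List.range 8).any fun a =>
    (List.range 8).any fun b => ((tau a ^^^ tau b) &&& W) == 2 ^ k

/-- a node -/
def node (i : ℕ) : ℕ × List ℕ × (ℕ × ℕ × ℕ) × (ℕ × ℕ × ℕ) := tab.getD i (0, [], (0, 0, 0), (0, 0, 0))

/-- the downward check -/
def down (i : ℕ) (e : ℕ × List ℕ × (ℕ × ℕ × ℕ) × (ℕ × ℕ × ℕ)) : Bool :=
  (e.2.1 == [1] && leaf e.1) ||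
    (decide (e.2.2.1.2.1 < i) && decide (e.2.2.1.2.2 < i) &&
      tri e (node e.2.2.1.2.1) (node e.2.2.1.2.2) e.2.2.1.1)

/-- the upward check -/
def up (i : ℕ) (e : ℕ × List ℕ × (ℕ × ℕ × ℕ) × (ℕ × ℕ × ℕ)) : Bool :=
  i == 491 ||
    (decide (i < e.2.2.2.2.1) && decide (e.2.2.2.2.1 < 492) && decide (e.2.2.2.2.2 < 492) &&
      tri (node e.2.2.2.2.1) e (node e.2.2.2.2.2) e.2.2.2.1)

theorem check_down : ((List.range 492).all fun i => down i (node i)) = true := by
  decide +kernel

theorem check_up : ((List.range 492).all fun i => up i (node i)) = true := by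
  decide +kernel

theorem check_top : (node 491).1 = 2 ^ 18 - 1 ∧ (node 491).2.1 = [1, 11, 39, 59, 39, 11, 1] := by
  decide +kernel

/-- coordinates of a point -/
def pt (j k : ℕ) : ℤ := (pts.getD j []).getD k 0

/-- a facet -/
def fc (j : ℕ) : ℕ := fac.getD j 0

theorem check_supp : ((List.range 161).all fun j => (List.range 18).all fun k =>
    (pt j k != 0) == (fc j).testBit k) = true := by
  decide +kernel

theorem check_sum : ((List.range 161).all fun j => (List.range 7).all fun a =>
    ((List.range 18).map fun k => if (tau a).testBit k then pt j k else 0).sum == (a : ℤ) + 1)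
      = true := by
  decide +kernel

/-- the union of the members strictly below -/
def below (W k : ℕ) : ℕ :=
  (List.range 18).foldr (fun l r => if W.testBit l && (m l &&& m k) == m l && l != k then m l ||| r
    else r) 0

theorem check_nested : ((List.range 161).all fun j => (List.range 18).all fun k =>
    below (fc j) k != m k) = true := by
  decide +kernel

theorem check_sep : ((List.range 161).all fun i => (List.range 161).all fun j =>
    i == j || (fc i &&& fc j) != fc i) = true := by
  decide +kernel

theorem check_adj : ((List.range 18).all fun w => (List.range 18).all fun k =>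
    (adj w).testBit k || ((m w &&& m k) != m w && (m w &&& m k) != m k &&
      (List.range 18).any fun l => m l == (m w ||| m k))) = true := by
  decide +kernel

theorem check_build : ((List.range 18).all fun w => (List.range 18).all fun k =>
    (m w &&& m k) == 0 || (List.range 18).any fun l => m l == (m w ||| m k)) = true := by
  decide +kernel

theorem check_inj : ((List.range 18).all fun w => (List.range 18).all fun k =>
    w == k || m w != m k) = true := by
  decide +kernel

theorem check_range : ((List.range 18).all fun w => decide (m w < 128) && m w != 0) = true := by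
  decide +kernel

theorem check_tau : ((List.range 7).all fun a => (List.range 18).all fun k =>
    (tau a).testBit k == (m k).testBit a) = true := by
  decide +kernel

theorem check_single : ((List.range 7).all fun a => m a == 2 ^ a) = true := by
  decide +kernel

end Pool.Agent.Q164.KZ.Tab
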