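import Mathlib
import Pool.Agent.Q164.KZ.Res

/-!
# The grading of a quotient of a polynomial ring by a homogeneous ideal
-/

set_option autoImplicit false

namespace Pool.Agent.Q164.KZ

open MvPolynomial

/-- the component of a product with a homogeneous polynomial -/
lemma hc_mul {σ : Type} {d : ℕ} {f : MvPolynomial σ ℚ} (hf : f ∈ homogeneousSubmodule σ ℚ d)
    (n : ℕ) (g : MvPolynomial σ ℚ) :
    homogeneousComponent (n + d) (f * g) = f * homogeneousComponent n g := by
  have key : ∀ i, homogeneousComponent (n + d) (f * homogeneousComponent i g) =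
      if i = n then f * homogeneousComponent i g else 0 := by
    intro i
    have h1 : f * homogeneousComponent i g ∈ homogeneousSubmodule σ ℚ (d + i) :=
      IsHomogeneous.mul hf (homogeneousComponent_isHomogeneous i g)
    rw [homogeneousComponent_of_mem h1]
    by_cases h : i = n
    · subst h
      rw [if_pos (by omega), if_pos rfl]
    · rw [if_neg (by omega), if_neg h]
  conv_lhs => rw [← sum_homogeneousComponent g, Finset.mul_sum, map_sum]
  rw [Finset.sum_congr rfl (fun i _ => key i), Finset.sum_ite_eq']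
  split_ifs with h
  · rfl
  · rw [Finset.mem_range] at h
    rw [homogeneousComponent_eq_zero n g (by omega), mul_zero]

lemma hc_mul_of_lt {σ : Type} {d : ℕ} {f : MvPolynomial σ ℚ}
    (hf : f ∈ homogeneousSubmodule σ ℚ d) {m : ℕ} (hm : m < d) (g : MvPolynomial σ ℚ) :
    homogeneousComponent m (f * g) = 0 := by
  conv_lhs => rw [← sum_homogeneousComponent g, Finset.mul_sum, map_sum]
  apply Finset.sum_eq_zero
  intro i _
  have h1 : f * homogeneousComponent i g ∈ homogeneousSubmodule σ ℚ (d + i) :=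
    IsHomogeneous.mul hf (homogeneousComponent_isHomogeneous i g)
  rw [homogeneousComponent_of_mem h1, if_neg (by omega)]

variable {σ : Type} (I : Ideal (MvPolynomial σ ℚ))

/-- closed under homogeneous components -/
def Homog : Prop := ∀ n, ∀ f ∈ I, homogeneousComponent n f ∈ I

lemma homog_span {S : Set (MvPolynomial σ ℚ)}
    (hS : ∀ f ∈ S, ∃ d, f ∈ homogeneousSubmodule σ ℚ d) : Homog (Ideal.span S) := by
  intro n f hf
  induction hf using Submodule.span_induction with
  | mem f hf =>
    obtain ⟨d, hd⟩ := hS f hf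
    rw [homogeneousComponent_of_mem hd]
    split_ifs
    · exact Ideal.subset_span hf
    · exact Submodule.zero_mem _
  | zero => rw [map_zero]; exact Submodule.zero_mem _
  | add f g _ _ h1 h2 => rw [map_add]; exact Submodule.add_mem _ h1 h2
  | smul a f hf h1 =>
    -- reduce to a statement for all components
    have hall : ∀ f ∈ Ideal.span S, ∀ n, homogeneousComponent n f ∈ Ideal.span S →
        True := fun _ _ _ _ => trivial
    rw [smul_eq_mul]
    have : ∀ f ∈ Ideal.span S, ∀ a : MvPolynomial σ ℚ, ∀ n,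
        homogeneousComponent n (f * a) ∈ Ideal.span S := by
      intro f hf
      induction hf using Submodule.span_induction with
      | mem f hf =>
        intro a n
        obtain ⟨d, hd⟩ := hS f hf
        by_cases h : n < d
        · rw [hc_mul_of_lt hd h]; exact Submodule.zero_mem _
        · obtain ⟨m, rfl⟩ : ∃ m, n = m + d := ⟨n - d, by omega⟩
          rw [hc_mul hd]
          exact Ideal.mul_mem_right _ _ (Ideal.subset_span hf)
      | zero =>
        intro a n
        rw [zero_mul, map_zero]; exact Submodule.zero_mem _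
      | add f g _ _ h1 h2 =>
        intro a n
        rw [add_mul, map_add]; exact Submodule.add_mem _ (h1 a n) (h2 a n)
      | smul b f _ h1 =>
        intro a n
        rw [smul_eq_mul, mul_comm b f, mul_assoc]
        exact h1 (b * a) n
    rw [mul_comm]
    exact this f hf a n

/-- the quotient map -/
noncomputable abbrev qm : MvPolynomial σ ℚ →ₐ[ℚ] (MvPolynomial σ ℚ ⧸ I) := Ideal.Quotient.mkₐ ℚ I

/-- the graded parts -/
noncomputable def part (n : ℕ) : Submodule ℚ (MvPolynomial σ ℚ ⧸ I) :=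
  (homogeneousSubmodule σ ℚ n).map (qm I).toLinearMap

lemma qm_surj (a : MvPolynomial σ ℚ ⧸ I) : ∃ f, qm I f = a := Ideal.Quotient.mk_surjective a

lemma qm_eq_zero {f : MvPolynomial σ ℚ} : qm I f = 0 ↔ f ∈ I := Ideal.Quotient.eq_zero_iff_mem

variable {I} (hI : Homog I)

/-- the projections -/
noncomputable def proj (n : ℕ) : (MvPolynomial σ ℚ ⧸ I) →ₗ[ℚ] (MvPolynomial σ ℚ ⧸ I) :=
  (Submodule.Quotient.restrictScalarsEquiv ℚ I).toLinearMap ∘ₗ
    (Submodule.mapQ (I.restrictScalars ℚ) (I.restrictScalars ℚ) (homogeneousComponent n)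
      (fun f hf => hI n f hf)) ∘ₗ
    (Submodule.Quotient.restrictScalarsEquiv ℚ I).symm.toLinearMap

lemma proj_qm (n : ℕ) (f : MvPolynomial σ ℚ) :
    proj hI n (qm I f) = qm I (homogeneousComponent n f) := rfl

lemma proj_mem (n : ℕ) (a : MvPolynomial σ ℚ ⧸ I) : proj hI n a ∈ part I n := by
  obtain ⟨f, rfl⟩ := qm_surj I a
  rw [proj_qm]
  exact ⟨_, homogeneousComponent_mem n f, rfl⟩

lemma proj_of_mem {n : ℕ} {a : MvPolynomial σ ℚ ⧸ I} (ha : a ∈ part I n) (m : ℕ) :
    proj hI m a = if m = n then a else 0 := by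
  obtain ⟨f, hf, rfl⟩ := ha
  have h1 : proj hI m ((qm I).toLinearMap f) = qm I (homogeneousComponent m f) := proj_qm hI m f
  rw [h1, homogeneousComponent_of_mem hf]
  split_ifs
  · rfl
  · exact map_zero _

lemma proj_self {n : ℕ} {a : MvPolynomial σ ℚ ⧸ I} (ha : a ∈ part I n) : proj hI n a = a := by
  rw [proj_of_mem hI ha, if_pos rfl]

lemma proj_mul {d : ℕ} {a : MvPolynomial σ ℚ ⧸ I} (ha : a ∈ part I d) (n : ℕ)
    (b : MvPolynomial σ ℚ ⧸ I) : proj hI (n + d) (a * b) = a * proj hI n b := by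
  obtain ⟨f, hf, rfl⟩ := ha
  obtain ⟨g, rfl⟩ := qm_surj I b
  have h1 : (qm I).toLinearMap f * qm I g = qm I (f * g) := (map_mul (qm I) f g).symm
  rw [h1, proj_qm, proj_qm, hc_mul hf, map_mul]
  rfl

lemma proj_zero_mul {a : MvPolynomial σ ℚ ⧸ I} (ha : a ∈ part I 1)
    (b : MvPolynomial σ ℚ ⧸ I) : proj hI 0 (a * b) = 0 := by
  obtain ⟨f, hf, rfl⟩ := ha
  obtain ⟨g, rfl⟩ := qm_surj I b
  have h1 : (qm I).toLinearMap f * qm I g = qm I (f * g) := (map_mul (qm I) f g).symm
  rw [h1, proj_qm, hc_mul_of_lt hf (by norm_num), map_zero]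

lemma sum_proj (a : MvPolynomial σ ℚ ⧸ I) : ∃ N, ∑ i ∈ Finset.range N, proj hI i a = a := by
  obtain ⟨f, rfl⟩ := qm_surj I a
  refine ⟨f.totalDegree + 1, ?_⟩
  conv_rhs => rw [← sum_homogeneousComponent f, map_sum]
  rfl

lemma mul_mem_part {m n : ℕ} {a b : MvPolynomial σ ℚ ⧸ I} (ha : a ∈ part I m)
    (hb : b ∈ part I n) : a * b ∈ part I (m + n) := by
  obtain ⟨f, hf, rfl⟩ := ha
  obtain ⟨g, hg, rfl⟩ := hb
  exact ⟨f * g, IsHomogeneous.mul hf hg, map_mul (qm I) f g⟩

/-- the linear data of the quotient -/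
noncomputable def linData : LinData (MvPolynomial σ ℚ ⧸ I) where
  L := (part I 1).toAddSubgroup
  p1 := (proj hI 1).toAddMonoidHom
  p2 := (proj hI 2).toAddMonoidHom
  p1_mem a := proj_mem hI 1 a
  p1_of_mem a ha := proj_self hI ha
  p2_mul a ha b := proj_mul hI ha 1 b

instance [Finite σ] (n : ℕ) : Module.Finite ℚ (part I n) := by
  have h := (homogeneousSubmodule_fg (σ := σ) (R := ℚ) n).map (qm I).toLinearMap
  exact Module.Finite.iff_fg.2 h

lemma part_eq_span (n : ℕ) {a : MvPolynomial σ ℚ ⧸ I} (ha : a ∈ part I (n + 1)) :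
    a ∈ Ideal.span (Set.range fun s : σ => qm I (X s)) := by
  obtain ⟨f, hf, rfl⟩ := ha
  have h1 : f ∈ Ideal.span (Set.range (X : σ → MvPolynomial σ ℚ)) := by
    have hz : constantCoeff f = 0 := by
      rw [constantCoeff_eq]
      exact IsHomogeneous.coeff_eq_zero hf (by simp)
    rw [← Set.image_univ, mem_ideal_span_X_image]
    intro m hm
    have hm0 : m ≠ 0 := by
      rintro rfl
      rw [mem_support_iff] at hm
      exact hm hz
    obtain ⟨i, hi⟩ := Finsupp.ne_iff.1 hm0
    exact ⟨i, Set.mem_univ i, by simpa using hi⟩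
  have h2 := Ideal.mem_map_of_mem (qm I) h1
  rw [Ideal.map_span] at h2
  refine Ideal.span_mono ?_ h2
  rintro _ ⟨_, ⟨s, rfl⟩, rfl⟩
  exact ⟨s, rfl⟩

end Pool.Agent.Q164.KZ
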