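import Mathlib
import Pool.Agent.Q164.KZ.Graded

/-!
# Dimension counts for colon ideals of linear forms
-/

set_option autoImplicit false

namespace Pool.Agent.Q164.KZ

open MvPolynomial Module

variable {σ : Type} {I : Ideal (MvPolynomial σ ℚ)} (hI : Homog I)

/-- closed under the projections -/
def Closed (J : Ideal (MvPolynomial σ ℚ ⧸ I)) : Prop := ∀ n, ∀ a ∈ J, proj hI n a ∈ J

lemma closed_span {S : Set (MvPolynomial σ ℚ ⧸ I)} (hS : ∀ a ∈ S, a ∈ part I 1) :
    Closed hI (Ideal.span S) := by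
  have key : ∀ a ∈ Ideal.span S, ∀ b n, proj hI n (a * b) ∈ Ideal.span S := by
    intro a ha
    induction ha using Submodule.span_induction with
    | mem a ha =>
      intro b n
      rcases n with _ | n
      · rw [proj_zero_mul hI (hS a ha)]
        exact Submodule.zero_mem _
      · rw [proj_mul hI (hS a ha)]
        exact Ideal.mul_mem_right _ _ (Ideal.subset_span ha)
    | zero =>
      intro b n
      rw [zero_mul, map_zero]
      exact Submodule.zero_mem _
    | add f g _ _ h1 h2 =>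
      intro b n
      rw [add_mul, map_add]
      exact Submodule.add_mem _ (h1 b n) (h2 b n)
    | smul c f _ h1 =>
      intro b n
      rw [smul_eq_mul, mul_comm c f, mul_assoc]
      exact h1 _ n
  intro n a ha
  have := key a ha 1 n
  rwa [mul_one] at this

lemma closed_sup {J : Ideal (MvPolynomial σ ℚ ⧸ I)} (hJ : Closed hI J)
    {x : MvPolynomial σ ℚ ⧸ I} (hx : x ∈ part I 1) : Closed hI (J ⊔ Ideal.span {x}) := by
  intro n a ha
  obtain ⟨j, hj, y, hy, rfl⟩ := Submodule.mem_sup.1 ha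
  rw [map_add]
  refine Submodule.add_mem _ (Submodule.mem_sup_left (hJ n j hj)) (Submodule.mem_sup_right ?_)
  refine closed_span hI ?_ n y hy
  rintro a rfl
  exact hx

/-- the Hilbert function of the quotient by `J` -/
noncomputable def hd (J : Ideal (MvPolynomial σ ℚ ⧸ I)) (n : ℕ) : ℤ :=
  (finrank ℚ (part I n) : ℤ) -
    finrank ℚ (part I n ⊓ J.restrictScalars ℚ : Submodule ℚ (MvPolynomial σ ℚ ⧸ I))

/-- the colon space -/
noncomputable def colonS (J : Ideal (MvPolynomial σ ℚ ⧸ I)) (x : MvPolynomial σ ℚ ⧸ I) :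
    Submodule ℚ (MvPolynomial σ ℚ ⧸ I) :=
  (J.restrictScalars ℚ).comap (LinearMap.mulLeft ℚ x)

lemma mem_colonS {J : Ideal (MvPolynomial σ ℚ ⧸ I)} {x a : MvPolynomial σ ℚ ⧸ I} :
    a ∈ colonS J x ↔ x * a ∈ J := Iff.rfl

lemma mem_sup_span {J : Ideal (MvPolynomial σ ℚ ⧸ I)} {x a : MvPolynomial σ ℚ ⧸ I} :
    a ∈ J ⊔ Ideal.span {x} ↔ ∃ j ∈ J, ∃ b, j + x * b = a := by
  rw [Submodule.mem_sup]
  constructor
  · rintro ⟨j, hj, y, hy, rfl⟩
    obtain ⟨b, rfl⟩ := Ideal.mem_span_singleton'.1 hy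
    exact ⟨j, hj, b, by rw [mul_comm]⟩
  · rintro ⟨j, hj, b, rfl⟩
    exact ⟨j, hj, x * b, Ideal.mul_mem_right _ _ (Ideal.subset_span rfl), rfl⟩

include hI in
lemma hd_zero {J : Ideal (MvPolynomial σ ℚ ⧸ I)} (hJ : Closed hI J)
    {x : MvPolynomial σ ℚ ⧸ I} (hx : x ∈ part I 1) : hd (J ⊔ Ideal.span {x}) 0 = hd J 0 := by
  have h : (part I 0 ⊓ (J ⊔ Ideal.span {x}).restrictScalars ℚ : Submodule ℚ _) =
      part I 0 ⊓ J.restrictScalars ℚ := by
    apply le_antisymm
    · rintro a ⟨h1, h2⟩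
      refine ⟨h1, ?_⟩
      obtain ⟨j, hj, b, rfl⟩ := mem_sup_span.1 h2
      have h3 := proj_self hI h1
      rw [map_add, proj_zero_mul hI hx, add_zero] at h3
      rw [← h3]
      exact hJ 0 j hj
    · rintro a ⟨h1, h2⟩
      exact ⟨h1, Submodule.mem_sup_left h2⟩
  unfold hd
  rw [h]

variable [Finite σ]

lemma finite_inf (n : ℕ) (K : Submodule ℚ (MvPolynomial σ ℚ ⧸ I)) :
    Module.Finite ℚ (part I n ⊓ K : Submodule ℚ (MvPolynomial σ ℚ ⧸ I)) :=
  Submodule.finiteDimensional_of_le inf_le_left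

include hI in
lemma dim_succ {J : Ideal (MvPolynomial σ ℚ ⧸ I)} (hJ : Closed hI J)
    {x : MvPolynomial σ ℚ ⧸ I} (hx : x ∈ part I 1) (n : ℕ) :
    finrank ℚ (part I n) +
      finrank ℚ (part I (n + 1) ⊓ J.restrictScalars ℚ : Submodule ℚ (MvPolynomial σ ℚ ⧸ I)) =
    finrank ℚ (part I (n + 1) ⊓ (J ⊔ Ideal.span {x}).restrictScalars ℚ :
      Submodule ℚ (MvPolynomial σ ℚ ⧸ I)) +
      finrank ℚ (part I n ⊓ colonS J x : Submodule ℚ (MvPolynomial σ ℚ ⧸ I)) := by
  have i1 := finite_inf (I := I) (n + 1) (J.restrictScalars ℚ)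
  have i2 := finite_inf (I := I) n (colonS J x)
  let φ : (part I n) × (part I (n + 1) ⊓ J.restrictScalars ℚ :
      Submodule ℚ (MvPolynomial σ ℚ ⧸ I)) →ₗ[ℚ] (MvPolynomial σ ℚ ⧸ I) :=
    ((LinearMap.mulLeft ℚ x) ∘ₗ (part I n).subtype).coprod
      (part I (n + 1) ⊓ J.restrictScalars ℚ : Submodule ℚ (MvPolynomial σ ℚ ⧸ I)).subtype
  have hφ : ∀ b u, φ (b, u) = x * (b : MvPolynomial σ ℚ ⧸ I) + u := fun b u => rfl
  have hrange : LinearMap.range φ = part I (n + 1) ⊓ (J ⊔ Ideal.span {x}).restrictScalars ℚ := by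
    apply le_antisymm
    · rintro _ ⟨⟨b, u⟩, rfl⟩
      rw [hφ]
      refine ⟨Submodule.add_mem _ ?_ u.2.1, ?_⟩
      · have := mul_mem_part hx b.2
        rwa [add_comm 1 n] at this
      · refine Submodule.add_mem _ (Submodule.mem_sup_right ?_) (Submodule.mem_sup_left u.2.2)
        exact Ideal.mul_mem_right _ _ (Ideal.subset_span rfl)
    · rintro a ⟨h1, h2⟩
      obtain ⟨j, hj, b, rfl⟩ := mem_sup_span.1 h2
      have h3 := proj_self hI h1
      rw [map_add, proj_mul hI hx] at h3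
      refine ⟨(⟨proj hI n b, proj_mem hI n b⟩, ⟨proj hI (n + 1) j, proj_mem hI _ j, hJ _ j hj⟩), ?_⟩
      rw [hφ, add_comm]
      exact h3
  let ψ : (part I n ⊓ colonS J x : Submodule ℚ (MvPolynomial σ ℚ ⧸ I)) →ₗ[ℚ]
      (part I n) × (part I (n + 1) ⊓ J.restrictScalars ℚ :
      Submodule ℚ (MvPolynomial σ ℚ ⧸ I)) :=
    { toFun := fun b => (⟨b, b.2.1⟩, ⟨-(x * b), by
        refine Submodule.neg_mem _ ⟨?_, b.2.2⟩
        have := mul_mem_part hx b.2.1
        rwa [add_comm 1 n] at this⟩)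
      map_add' := by
        intro a b
        ext
        · rfl
        · show -(x * ((a : MvPolynomial σ ℚ ⧸ I) + b)) = -(x * a) + -(x * b)
          ring
      map_smul' := by
        intro c a
        ext
        · rfl
        · show -(x * (c • (a : MvPolynomial σ ℚ ⧸ I))) = c • (-(x * a))
          rw [mul_smul_comm, smul_neg] }
  have hψ : Function.Injective ψ := by
    intro a b h
    have := congrArg (fun p => ((p.1 : part I n) : MvPolynomial σ ℚ ⧸ I)) h
    exact Subtype.ext this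
  have hker : LinearMap.ker φ = LinearMap.range ψ := by
    apply le_antisymm
    · rintro ⟨b, u⟩ h
      rw [LinearMap.mem_ker, hφ] at h
      have h1 : (u : MvPolynomial σ ℚ ⧸ I) = -(x * b) := eq_neg_of_add_eq_zero_right h
      refine ⟨⟨b, b.2, ?_⟩, ?_⟩
      · show x * (b : MvPolynomial σ ℚ ⧸ I) ∈ J
        have h2 : -(u : MvPolynomial σ ℚ ⧸ I) ∈ J := J.neg_mem u.2.2
        rwa [h1, neg_neg] at h2
      · ext
        · rfl
        · exact h1.symm
    · rintro _ ⟨b, rfl⟩
      rw [LinearMap.mem_ker]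
      show x * (b : MvPolynomial σ ℚ ⧸ I) + -(x * b) = 0
      rw [add_neg_cancel]
  have h1 := LinearMap.finrank_range_add_finrank_ker φ
  rw [hker, LinearMap.finrank_range_of_inj hψ, hrange, Module.finrank_prod] at h1
  exact h1.symm

include hI in
lemma hd_succ {J : Ideal (MvPolynomial σ ℚ ⧸ I)} (hJ : Closed hI J)
    {x : MvPolynomial σ ℚ ⧸ I} (hx : x ∈ part I 1) (n : ℕ) :
    hd J (n + 1) = hd (J ⊔ Ideal.span {x}) (n + 1) + ((finrank ℚ (part I n) : ℤ) -
      finrank ℚ (part I n ⊓ colonS J x : Submodule ℚ (MvPolynomial σ ℚ ⧸ I))) := by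
  have h := dim_succ hI hJ hx n
  unfold hd
  omega

lemma colon_le {J C : Ideal (MvPolynomial σ ℚ ⧸ I)} {x : MvPolynomial σ ℚ ⧸ I}
    (h : ∀ c ∈ C, x * c ∈ J) (n : ℕ) :
    (finrank ℚ (part I n) : ℤ) -
      finrank ℚ (part I n ⊓ colonS J x : Submodule ℚ (MvPolynomial σ ℚ ⧸ I)) ≤ hd C n := by
  have i2 := finite_inf (I := I) n (colonS J x)
  have : (part I n ⊓ C.restrictScalars ℚ : Submodule ℚ (MvPolynomial σ ℚ ⧸ I)) ≤
      part I n ⊓ colonS J x := fun a ha => ⟨ha.1, h a ha.2⟩
  have := Submodule.finrank_mono this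
  unfold hd
  omega

lemma hd_nonneg (J : Ideal (MvPolynomial σ ℚ ⧸ I)) (n : ℕ) : 0 ≤ hd J n := by
  have : (part I n ⊓ J.restrictScalars ℚ : Submodule ℚ (MvPolynomial σ ℚ ⧸ I)) ≤ part I n :=
    inf_le_left
  have := Submodule.finrank_mono this
  unfold hd
  omega

omit [Finite σ] in
lemma hd_bot (n : ℕ) : hd (⊥ : Ideal (MvPolynomial σ ℚ ⧸ I)) n = finrank ℚ (part I n) := by
  have : (part I n ⊓ (⊥ : Ideal (MvPolynomial σ ℚ ⧸ I)).restrictScalars ℚ : Submodule ℚ _) = ⊥ := by
    rw [eq_bot_iff]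
    rintro a ⟨_, h⟩
    exact h
  unfold hd
  rw [this, finrank_bot]
  simp

lemma finrank_part_zero : finrank ℚ (part I 0) ≤ 1 := by
  have h : part I 0 ≤ Submodule.span ℚ {(1 : MvPolynomial σ ℚ ⧸ I)} := by
    rintro _ ⟨f, hf, rfl⟩
    rw [Submodule.mem_span_singleton]
    have h1 : f = C (coeff 0 f) := by
      rw [SetLike.mem_coe, mem_homogeneousSubmodule] at hf
      exact (totalDegree_eq_zero_iff_eq_C).1 (Nat.le_zero.1 hf.totalDegree_le)
    refine ⟨coeff 0 f, ?_⟩
    conv_rhs => rw [h1]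
    show coeff 0 f • (1 : MvPolynomial σ ℚ ⧸ I) = qm I (C (coeff 0 f))
    rw [← MvPolynomial.algebraMap_eq, AlgHom.commutes, Algebra.algebraMap_eq_smul_one]
  calc finrank ℚ (part I 0) ≤ finrank ℚ (Submodule.span ℚ {(1 : MvPolynomial σ ℚ ⧸ I)}) :=
        Submodule.finrank_mono h
    _ ≤ 1 := by
        have := finrank_span_le_card (R := ℚ) ({(1 : MvPolynomial σ ℚ ⧸ I)} : Set _)
        simpa using this

/-- a leaf -/
lemma hd_leaf {J : Ideal (MvPolynomial σ ℚ ⧸ I)} (h : ∀ s, qm I (X s) ∈ J) (n : ℕ) :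
    hd J n ≤ if n = 0 then 1 else 0 := by
  rcases n with _ | n
  · rw [if_pos rfl]
    have := finrank_part_zero (I := I)
    unfold hd
    omega
  · rw [if_neg (by omega)]
    have h1 : (part I (n + 1) ⊓ J.restrictScalars ℚ : Submodule ℚ (MvPolynomial σ ℚ ⧸ I)) =
        part I (n + 1) := by
      rw [inf_eq_left]
      intro a ha
      have h2 := part_eq_span n ha
      exact (Ideal.span_le.2 (by rintro _ ⟨s, rfl⟩; exact h s) : Ideal.span _ ≤ J) h2
    unfold hd
    rw [h1]
    omega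

include hI in
/-- the upper bound -/
lemma hd_le_add {J C : Ideal (MvPolynomial σ ℚ ⧸ I)} (hJ : Closed hI J)
    {x : MvPolynomial σ ℚ ⧸ I} (hx : x ∈ part I 1) (hC : ∀ c ∈ C, x * c ∈ J) (n : ℕ) :
    hd J (n + 1) ≤ hd (J ⊔ Ideal.span {x}) (n + 1) + hd C n := by
  rw [hd_succ hI hJ hx]
  have := colon_le hC n
  omega

include hI in
/-- equality everywhere -/
lemma exact_step {J C : Ideal (MvPolynomial σ ℚ ⧸ I)} (hJ : Closed hI J)
    {x : MvPolynomial σ ℚ ⧸ I} (hx : x ∈ part I 1) (hC : ∀ c ∈ C, x * c ∈ J) (g gA gB : ℕ → ℤ)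
    (h0 : g 0 = gA 0) (hs : ∀ n, g (n + 1) = gA (n + 1) + gB n) (hg : ∀ n, hd J n = g n)
    (hA : ∀ n, hd (J ⊔ Ideal.span {x}) n ≤ gA n) (hB : ∀ n, hd C n ≤ gB n) :
    (∀ n, hd (J ⊔ Ideal.span {x}) n = gA n) ∧ ∀ a, a ∈ C ↔ x * a ∈ J := by
  have key : ∀ n, hd (J ⊔ Ideal.span {x}) (n + 1) = gA (n + 1) ∧
      (finrank ℚ (part I n) : ℤ) -
        finrank ℚ (part I n ⊓ colonS J x : Submodule ℚ (MvPolynomial σ ℚ ⧸ I)) = hd C n := by
    intro n
    have h1 := hd_succ hI hJ hx n
    have h2 := colon_le hC n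
    have h3 := hA (n + 1)
    have h4 := hB n
    have h5 := hs n
    have h6 := hg (n + 1)
    constructor <;> omega
  constructor
  · intro n
    rcases n with _ | n
    · rw [hd_zero hI hJ hx, hg, h0]
    · exact (key n).1
  · have hpart : ∀ n, (part I n ⊓ C.restrictScalars ℚ : Submodule ℚ (MvPolynomial σ ℚ ⧸ I)) =
        part I n ⊓ colonS J x := by
      intro n
      have i2 := finite_inf (I := I) n (colonS J x)
      apply Submodule.eq_of_le_of_finrank_eq
      · exact fun a ha => ⟨ha.1, hC a ha.2⟩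
      · have := (key n).2
        unfold hd at this
        omega
    intro a
    refine ⟨hC a, fun h => ?_⟩
    obtain ⟨N, hN⟩ := sum_proj hI a
    rw [← hN]
    refine C.sum_mem fun i _ => ?_
    have h1 : proj hI i a ∈ (part I i ⊓ colonS J x : Submodule ℚ (MvPolynomial σ ℚ ⧸ I)) := by
      refine ⟨proj_mem hI i a, ?_⟩
      show x * proj hI i a ∈ J
      rw [← proj_mul hI hx]
      exact hJ _ _ h
    rw [← hpart] at h1
    exact h1.2

/-! ### The lower bound -/

omit [Finite σ] in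
/-- the deformation argument -/
theorem lower_bound [Finite σ] {m : ℕ} {S : Set (MvPolynomial σ ℚ)} (hS : I = Ideal.span S)
    (p : Fin m → σ → ℚ)
    (h1 : ∀ f ∈ S, (∃ d, f ∈ homogeneousSubmodule σ ℚ d ∧ ∀ j, eval (p j) f = 0) ∨
      (f ∈ homogeneousSubmodule σ ℚ 1 ∧ ∃ c : ℚ, ∀ j, eval (p j) f = c))
    (D : ℕ) (sep : Fin m → MvPolynomial σ ℚ) (hsep : ∀ i, ∃ d < D, sep i ∈ homogeneousSubmodule σ ℚ d)
    (hsep1 : ∀ i, eval (p i) (sep i) ≠ 0) (hsep2 : ∀ i j, i ≠ j → eval (p j) (sep i) = 0) :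
    m ≤ ∑ n ∈ Finset.range D, finrank ℚ (part I n) := by
  let E : MvPolynomial σ ℚ →ₗ[ℚ] (Fin m → ℚ) :=
    LinearMap.pi fun j => (aeval (p j) : MvPolynomial σ ℚ →ₐ[ℚ] ℚ).toLinearMap
  have hE : ∀ f j, E f j = eval (p j) f := by
    intro f j
    show aeval (p j) f = _
    exact congrFun (congrArg DFunLike.coe (coe_aeval_eq_eval (p j))) f
  let U : ℕ → Submodule ℚ (Fin m → ℚ) := fun n =>
    ⨆ i : Fin n, (homogeneousSubmodule σ ℚ i).map E
  have hU : ∀ n i, i < n → (homogeneousSubmodule σ ℚ i).map E ≤ U n := by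
    intro n i hi
    exact le_iSup (fun i : Fin n => (homogeneousSubmodule σ ℚ i).map E) ⟨i, hi⟩
  -- the key point
  have hkey : ∀ f ∈ I, ∀ n, E (homogeneousComponent n f) ∈ U n := by
    have : ∀ f ∈ Ideal.span S, ∀ (b : MvPolynomial σ ℚ) (n : ℕ),
        E (homogeneousComponent n (f * b)) ∈ U n := by
      intro f hf
      induction hf using Submodule.span_induction with
      | mem f hf =>
        intro b n
        rcases h1 f hf with ⟨d, hd, h⟩ | ⟨hd, c, h⟩
        · by_cases hn : n < d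
          · rw [hc_mul_of_lt hd hn, map_zero]
            exact Submodule.zero_mem _
          · obtain ⟨k, rfl⟩ : ∃ k, n = k + d := ⟨n - d, by omega⟩
            rw [hc_mul hd]
            have : E (f * homogeneousComponent k b) = 0 := by
              funext j
              rw [hE, map_mul, h j, zero_mul]
              rfl
            rw [this]
            exact Submodule.zero_mem _
        · rcases n with _ | n
          · rw [hc_mul_of_lt hd (by norm_num), map_zero]
            exact Submodule.zero_mem _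
          · rw [hc_mul hd]
            have : E (f * homogeneousComponent n b) = c • E (homogeneousComponent n b) := by
              funext j
              rw [Pi.smul_apply, hE, hE, map_mul, h j]
              rfl
            rw [this]
            refine Submodule.smul_mem _ _ (hU (n + 1) n (by omega) ?_)
            exact ⟨_, homogeneousComponent_mem n b, rfl⟩
      | zero =>
        intro b n
        rw [zero_mul, map_zero, map_zero]
        exact Submodule.zero_mem _
      | add f g _ _ h1 h2 =>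
        intro b n
        rw [add_mul, map_add, map_add]
        exact Submodule.add_mem _ (h1 b n) (h2 b n)
      | smul c f _ h1 =>
        intro b n
        rw [smul_eq_mul, mul_comm c f, mul_assoc]
        exact h1 _ n
    intro f hf n
    rw [hS] at hf
    have h2 := this f hf 1 n
    rwa [mul_one] at h2
  have hstep : ∀ n, finrank ℚ (U (n + 1)) ≤ finrank ℚ (U n) + finrank ℚ (part I n) := by
    intro n
    have hsurj : ∃ s : (part I n) →ₗ[ℚ] (homogeneousSubmodule σ ℚ n),
        ∀ a : part I n, qm I (s a : MvPolynomial σ ℚ) = a := by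
      let q : (homogeneousSubmodule σ ℚ n) →ₗ[ℚ] (part I n) :=
        ((qm I).toLinearMap.domRestrict (homogeneousSubmodule σ ℚ n)).codRestrict (part I n)
          (fun f => ⟨f, f.2, rfl⟩)
      have hq : Function.Surjective q := by
        rintro ⟨_, f, hf, rfl⟩
        exact ⟨⟨f, hf⟩, rfl⟩
      obtain ⟨s, hs⟩ := q.exists_rightInverse_of_surjective (LinearMap.range_eq_top.2 hq)
      refine ⟨s, fun a => ?_⟩
      have := congrArg Subtype.val (LinearMap.congr_fun hs a)
      exact this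
    obtain ⟨s, hs⟩ := hsurj
    let T : Submodule ℚ (Fin m → ℚ) :=
      LinearMap.range (E ∘ₗ (homogeneousSubmodule σ ℚ n).subtype ∘ₗ s)
    have hT : finrank ℚ T ≤ finrank ℚ (part I n) := LinearMap.finrank_range_le _
    have hle : U (n + 1) ≤ U n ⊔ T := by
      apply iSup_le
      rintro ⟨i, hi⟩
      rcases Nat.lt_succ_iff_lt_or_eq.1 hi with h | h
      · exact (hU n i h).trans le_sup_left
      · subst h
        rintro _ ⟨f, hf, rfl⟩
        set a : part I i := ⟨qm I f, f, hf, rfl⟩ with ha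
        have h2 : f - (s a : MvPolynomial σ ℚ) ∈ I := by
          rw [← qm_eq_zero, map_sub, hs a, ha]
          exact sub_self _
        have h3 : f - (s a : MvPolynomial σ ℚ) ∈ homogeneousSubmodule σ ℚ i :=
          Submodule.sub_mem _ hf (s a).2
        have h4 := hkey _ h2 i
        rw [homogeneousComponent_of_mem h3, if_pos rfl, map_sub] at h4
        have h5 : E f = (E f - E (s a : MvPolynomial σ ℚ)) + E (s a : MvPolynomial σ ℚ) := by abel
        rw [h5]
        exact Submodule.add_mem_sup h4 ⟨a, rfl⟩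
    calc finrank ℚ (U (n + 1)) ≤ finrank ℚ (U n ⊔ T : Submodule ℚ (Fin m → ℚ)) :=
          Submodule.finrank_mono hle
      _ ≤ finrank ℚ (U n) + finrank ℚ T := Submodule.finrank_add_le_finrank_add_finrank _ _
      _ ≤ _ := by omega
  have hsum : ∀ n, finrank ℚ (U n) ≤ ∑ i ∈ Finset.range n, finrank ℚ (part I i) := by
    intro n
    induction n with
    | zero =>
      have : U 0 = ⊥ := by
        simp [U]
      rw [this, finrank_bot]
      exact Nat.zero_le _
    | succ n ih =>
      rw [Finset.sum_range_succ]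
      exact (hstep n).trans (by omega)
  have htop : U D = ⊤ := by
    rw [eq_top_iff]
    intro v _
    rw [← Finset.univ_sum_single v]
    refine Submodule.sum_mem _ fun i _ => ?_
    obtain ⟨d, hd, hm⟩ := hsep i
    have : (Pi.single i (v i) : Fin m → ℚ) = (v i / eval (p i) (sep i)) • E (sep i) := by
      funext j
      rw [Pi.smul_apply, hE, smul_eq_mul]
      by_cases h : i = j
      · subst h
        rw [Pi.single_eq_same, div_mul_cancel₀ _ (hsep1 i)]
      · rw [Pi.single_eq_of_ne (Ne.symm h), hsep2 i j h, mul_zero]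
    rw [this]
    exact Submodule.smul_mem _ _ (hU D d hd ⟨_, hm, rfl⟩)
  have := hsum D
  rw [htop, finrank_top, Module.finrank_fin_fun] at this
  exact this

end Pool.Agent.Q164.KZ
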