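import Mathlib
import Pool.Agent.Q164.Mask
import Pool.Agent.Q164.KZ.Check
import Pool.Agent.Q164.KZ.Engine
import Pool.Agent.Q164.KZ.Build

/-!
# A flag nestohedron whose Chow ring is Koszul
-/

set_option autoImplicit false

namespace Pool.Agent.Q164.KZ.Tab

open Set MvPolynomial Module
open Pool.Agent.Q164.Mask (mk st_mk testBit_mk mk_injective mk_lt mk_subset mk_union mk_inter)

/-- the set of a vertex -/
def st (k : ℕ) : Set (Fin 7) := Pool.Agent.Q164.Mask.st 7 (m k)

/-- the building set -/
def GG : Set (Set (Fin 7)) := Set.range fun k : Fin 18 => st k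

lemma all_range {n : ℕ} {f : ℕ → Bool} (h : ((List.range n).all f) = true) {i : ℕ} (hi : i < n) :
    f i = true := by
  rw [List.all_eq_true] at h
  exact h i (List.mem_range.2 hi)

lemma any_range {n : ℕ} {f : ℕ → Bool} (h : ((List.range n).any f) = true) :
    ∃ i < n, f i = true := by
  rw [List.any_eq_true] at h
  obtain ⟨i, hi, h⟩ := h
  exact ⟨i, List.mem_range.1 hi, h⟩

lemma m_lt {k : ℕ} (hk : k < 18) : m k < 2 ^ 7 := by
  have := all_range check_range hk
  simp only [Bool.and_eq_true, decide_eq_true_eq] at this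
  exact this.1

lemma mk_st' {k : ℕ} (hk : k < 18) : mk (st k) = m k := Pool.Agent.Q164.Mask.mk_st (m_lt hk)

lemma st_inj {k l : ℕ} (hk : k < 18) (hl : l < 18) (h : st k = st l) : k = l := by
  have h1 : m k = m l := by rw [← mk_st' hk, h, mk_st' hl]
  have := all_range (all_range check_inj hk) hl
  simp only [Bool.or_eq_true, beq_iff_eq, bne_iff_ne] at this
  rcases this with h2 | h2
  · exact h2
  · exact absurd h1 h2

lemma st_nonempty {k : ℕ} (hk : k < 18) : (st k).Nonempty := by
  rw [nonempty_iff_ne_empty]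
  intro h
  have h1 := mk_st' hk
  rw [h] at h1
  have h2 : mk (∅ : Set (Fin 7)) = 0 := by
    apply Nat.eq_of_testBit_eq
    intro i
    by_cases hi : i < 7
    · have := testBit_mk (∅ : Set (Fin 7)) ⟨i, hi⟩
      simpa using this
    · rw [Pool.Agent.Q164.Mask.testBit_mk_ge _ _ (not_lt.1 hi)]
      simp
  have := all_range check_range hk
  simp only [Bool.and_eq_true, decide_eq_true_eq, bne_iff_ne] at this
  exact this.2 (by rw [← h1, h2])

lemma mem_st {k : ℕ} (a : Fin 7) : a ∈ st k ↔ (m k).testBit a = true := Iff.rfl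

lemma single_mem (a : Fin 7) : ({a} : Set (Fin 7)) ∈ GG := by
  refine ⟨⟨a, by omega⟩, ?_⟩
  have h1 := all_range check_single a.2
  rw [beq_iff_eq] at h1
  ext b
  show (m (a : ℕ)).testBit b = true ↔ _
  rw [h1, Nat.testBit_two_pow, decide_eq_true_iff, mem_singleton_iff, ← Fin.ext_iff, eq_comm]

lemma union_of_mask {k l r : ℕ} (hk : k < 18) (hl : l < 18) (hr : r < 18)
    (h : m r = (m k ||| m l)) : st k ∪ st l = st r := by
  apply mk_injective
  rw [mk_union, mk_st' hk, mk_st' hl, mk_st' hr, h]

lemma union_mem {k l : ℕ} (hk : k < 18) (hl : l < 18) (h : (st k ∩ st l).Nonempty) :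
    st k ∪ st l ∈ GG := by
  have h1 := all_range (all_range check_build hk) hl
  rw [Bool.or_eq_true, beq_iff_eq] at h1
  rcases h1 with h1 | h1
  · obtain ⟨a, ha, hb⟩ := h
    have h2 : (m k &&& m l).testBit a = true := by
      rw [Nat.testBit_and, (mem_st a).1 ha, (mem_st a).1 hb]
      rfl
    rw [h1] at h2
    simp at h2
  · obtain ⟨r, hr, h2⟩ := any_range h1
    rw [beq_iff_eq] at h2
    exact ⟨⟨r, hr⟩, (union_of_mask hk hl hr h2).symm⟩

theorem building : IsBuildingSet (fr (Fin 7)) GG := by
  apply isBuildingSet_fr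
  · rintro _ ⟨k, rfl⟩
    exact st_nonempty k.2
  · exact single_mem
  · rintro _ ⟨k, rfl⟩ _ ⟨l, rfl⟩ h
    exact union_mem k.2 l.2 h

/-! ### Variables -/

/-- the vertices -/
def v (k : Fin 18) : GG := ⟨st k, k, rfl⟩

lemma v_inj : Function.Injective v := by
  intro k l h
  have := congrArg Subtype.val h
  exact Fin.ext (st_inj k.2 l.2 this)

lemma v_surj : Function.Surjective v := by
  rintro ⟨_, k, rfl⟩
  exact ⟨k, rfl⟩

/-- the indexing -/
noncomputable def ve : Fin 18 ≃ GG := Equiv.ofBijective v ⟨v_inj, v_surj⟩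

lemma ve_apply (k : Fin 18) : ve k = v k := rfl

instance : Finite GG := Finite.of_equiv _ ve

/-- the ideal -/
noncomputable abbrev II : Ideal (MvPolynomial GG ℚ) := chowIdeal (fr (Fin 7)) GG

/-- the generating set -/
def gens : Set (MvPolynomial GG ℚ) :=
  {f | ∃ S : Finset GG, ¬ IsNested (fr (Fin 7)) GG ((fun X : GG => (X : Set (Fin 7))) '' (S : Set GG)) ∧
      f = ∏ Y ∈ S, X Y} ∪
    {f | ∃ e ∈ (fr (Fin 7)).E, f = ∑ᶠ Y : {Y : GG // e ∈ (Y : Set (Fin 7))}, X Y.1}

lemma II_eq : II = Ideal.span gens := rfl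

/-- the linear forms -/
lemma lin_eq (e : Fin 7) : (∑ᶠ Y : {Y : GG // e ∈ (Y : Set (Fin 7))}, (X Y.1 : MvPolynomial GG ℚ)) =
    ∑ k : Fin 18, if (tau e).testBit k then X (v k) else 0 := by
  classical
  rw [finsum_subtype_eq_finsum_cond (f := fun Y : GG => (X Y : MvPolynomial GG ℚ))
    (fun Y : GG => e ∈ (Y : Set (Fin 7)))]
  have h1 : ∀ Y : GG, (∑ᶠ _ : e ∈ (Y : Set (Fin 7)), (X Y : MvPolynomial GG ℚ)) =
      if e ∈ (Y : Set (Fin 7)) then X Y else 0 := fun Y => finsum_eq_if
  rw [finsum_congr h1, ← finsum_comp_equiv ve, finsum_eq_sum_of_fintype]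
  refine Finset.sum_congr rfl fun k _ => ?_
  have h2 := all_range (all_range check_tau e.2) k.2
  rw [beq_iff_eq] at h2
  have h3 : (e ∈ ((ve k : GG) : Set (Fin 7))) ↔ (tau e).testBit k = true := by
    rw [h2]
    exact mem_st e
  by_cases h : (tau e).testBit k = true
  · rw [if_pos h, if_pos (h3.2 h)]
    rfl
  · rw [if_neg h, if_neg (fun h' => h (h3.1 h'))]

lemma mon_hom (S : Finset GG) :
    (∏ Y ∈ S, (X Y : MvPolynomial GG ℚ)) ∈ homogeneousSubmodule GG ℚ S.card := by
  have := IsHomogeneous.prod S (fun Y => (X Y : MvPolynomial GG ℚ)) (fun _ => 1)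
    (fun Y _ => isHomogeneous_X ℚ Y)
  simpa using this

lemma lin_hom (e : Fin 7) :
    (∑ k : Fin 18, if (tau e).testBit k then (X (v k) : MvPolynomial GG ℚ) else 0) ∈
      homogeneousSubmodule GG ℚ 1 := by
  refine Submodule.sum_mem _ fun k _ => ?_
  split_ifs
  · exact isHomogeneous_X ℚ _
  · exact Submodule.zero_mem _

lemma hom : Homog II := by
  rw [II_eq]
  apply homog_span
  rintro f (⟨S, _, rfl⟩ | ⟨e, _, rfl⟩)
  · exact ⟨_, mon_hom S⟩
  · rw [lin_eq]
    exact ⟨1, lin_hom e⟩

/-- the ring -/
abbrev AA : Type := MvPolynomial GG ℚ ⧸ II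

/-- the elements -/
noncomputable def xx (k : ℕ) : AA := if h : k < 18 then qm II (X (v ⟨k, h⟩)) else 0

lemma xx_mem (k : ℕ) : xx k ∈ part II 1 := by
  unfold xx
  split_ifs with h
  · exact ⟨_, isHomogeneous_X ℚ _, rfl⟩
  · exact Submodule.zero_mem _

lemma xx_mul {w k : ℕ} (hw : w < 18) (hk : k < 18) (h : (adj w).testBit k = false) :
    xx w * xx k = 0 := by
  have h1 := all_range (all_range check_adj hw) hk
  simp only [h, Bool.false_or, Bool.and_eq_true, bne_iff_ne, ne_eq] at h1
  obtain ⟨⟨h2, h3⟩, h4⟩ := h1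
  obtain ⟨r, hr, h5⟩ := any_range h4
  rw [beq_iff_eq] at h5
  have h6 := union_of_mask hw hk hr h5
  have n1 : ¬ st w ⊆ st k := by
    rw [mk_subset, mk_st' hw, mk_st' hk]
    exact h2
  have n2 : ¬ st k ⊆ st w := by
    rw [mk_subset, mk_st' hw, mk_st' hk, Nat.land_comm]
    exact h3
  have hne : v ⟨w, hw⟩ ≠ v ⟨k, hk⟩ := by
    intro h
    exact n1 (le_of_eq (congrArg Subtype.val h))
  unfold xx
  rw [dif_pos hw, dif_pos hk, ← map_mul, qm_eq_zero, II_eq]
  apply Ideal.subset_span
  left
  classical
  refine ⟨{v ⟨w, hw⟩, v ⟨k, hk⟩}, ?_, ?_⟩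
  · intro hn
    have h7 := hn {st w, st k} ?_ ?_ ?_
    · apply h7
      rw [fr_closure, sUnion_pair, h6]
      exact ⟨⟨r, hr⟩, rfl⟩
    · rintro _ (rfl | rfl)
      · exact ⟨v ⟨w, hw⟩, by simp, rfl⟩
      · exact ⟨v ⟨k, hk⟩, by simp, rfl⟩
    · refine ⟨st w, by simp, st k, by simp, ?_⟩
      intro h
      exact n1 (le_of_eq h)
    · rintro _ (rfl | rfl) _ (rfl | rfl) hh
      · exact absurd rfl hh
      · exact n1
      · exact n2
      · exact absurd rfl hh
  · rw [Finset.prod_pair hne]

lemma lin_zero {a : ℕ} (ha : a < 7) :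
    ∑ k ∈ Finset.range 18, (if (tau a).testBit k then xx k else 0) = 0 := by
  have h1 : qm II (∑ k : Fin 18, if (tau a).testBit k then X (v k) else 0) = 0 := by
    rw [qm_eq_zero, II_eq]
    apply Ideal.subset_span
    right
    exact ⟨⟨a, ha⟩, mem_univ _, (lin_eq ⟨a, ha⟩).symm⟩
  rw [map_sum] at h1
  rw [Finset.sum_range]
  refine Eq.trans ?_ h1
  refine Finset.sum_congr rfl fun k _ => ?_
  split_ifs
  · unfold xx
    rw [dif_pos k.2]
  · rw [map_zero]

/-! ### The ideals -/

/-- the ideal of the missing vertices -/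
noncomputable def idl (W : ℕ) : Ideal AA := Ideal.span {a | ∃ k, W.testBit k = false ∧ a = xx k}

lemma xx_mem_idl {W k : ℕ} (h : W.testBit k = false) : xx k ∈ idl W := Ideal.subset_span ⟨k, h, rfl⟩

lemma idl_closed (W : ℕ) : Closed hom (idl W) := by
  apply closed_span
  rintro _ ⟨k, _, rfl⟩
  exact xx_mem k

lemma idl_sup {A J w : ℕ} (h : (A ||| 2 ^ w) = J) (hw : A.testBit w = false) :
    idl A = idl J ⊔ Ideal.span {xx w} := by
  subst h
  apply le_antisymm
  · apply Ideal.span_le.2
    rintro _ ⟨k, hk, rfl⟩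
    by_cases h : k = w
    · subst h
      exact Submodule.mem_sup_right (Ideal.subset_span rfl)
    · apply Submodule.mem_sup_left
      apply xx_mem_idl
      rw [Nat.testBit_or, hk, Nat.testBit_two_pow]
      simpa using fun h' => h h'.symm
  · apply sup_le
    · apply Ideal.span_le.2
      rintro _ ⟨k, hk, rfl⟩
      apply xx_mem_idl
      rw [Nat.testBit_or, Bool.or_eq_false_iff] at hk
      exact hk.1
    · rw [Ideal.span_singleton_le_iff_mem]
      exact xx_mem_idl hw

lemma idl_colon {C J w : ℕ} (hw : w < 18) (h : C = (J &&& adj w)) :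
    ∀ c ∈ idl C, xx w * c ∈ idl J := by
  have h1 : idl C ≤ Submodule.comap (LinearMap.mulLeft AA (xx w)) (idl J) := by
    apply Ideal.span_le.2
    rintro _ ⟨k, hk, rfl⟩
    show xx w * xx k ∈ idl J
    subst h
    rw [Nat.testBit_and, Bool.and_eq_false_iff] at hk
    rcases hk with hk | hk
    · exact Ideal.mul_mem_left _ _ (xx_mem_idl hk)
    · by_cases h18 : k < 18
      · rw [xx_mul hw h18 hk]
        exact Ideal.zero_mem _
      · have : xx k = 0 := by
          unfold xx
          rw [dif_neg h18]
        rw [this, mul_zero]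
        exact Ideal.zero_mem _
  exact fun c hc => h1 hc

lemma leaf_mem {W : ℕ} (h : leaf W = true) (k : ℕ) : xx k ∈ idl W := by
  by_cases hk : k < 18
  · by_cases hW : W.testBit k = true
    · have h1 := all_range h hk
      rw [hW, Bool.not_true, Bool.false_or] at h1
      obtain ⟨a, ha, h2⟩ := any_range h1
      obtain ⟨b, hb, h3⟩ := any_range h2
      rw [beq_iff_eq] at h3
      have hlin : ∀ a < 8, ∑ k ∈ Finset.range 18, (if (tau a).testBit k then xx k else 0) = 0 := by
        intro a ha
        by_cases h7 : a < 7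
        · exact lin_zero h7
        · have : tau a = 0 := by
            have : a = 7 := by omega
            subst this
            rfl
          rw [this]
          simp
      have e1 : ∑ l ∈ Finset.range 18, ((if (tau a).testBit l then xx l else 0) -
          (if (tau b).testBit l then xx l else 0)) = 0 := by
        rw [Finset.sum_sub_distrib, hlin a ha, hlin b hb, sub_zero]
      rw [← Finset.add_sum_erase _ _ (Finset.mem_range.2 hk)] at e1
      have e2 : ∑ l ∈ (Finset.range 18).erase k, ((if (tau a).testBit l then xx l else 0) -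
          (if (tau b).testBit l then xx l else 0)) ∈ idl W := by
        refine Ideal.sum_mem _ fun l hl => ?_
        have hlk : l ≠ k := (Finset.mem_erase.1 hl).1
        by_cases hWl : W.testBit l = true
        · have h4 := congrArg (fun n => n.testBit l) h3
          simp only [Nat.testBit_and, Nat.testBit_xor, Nat.testBit_two_pow, hWl, Bool.and_true] at h4
          have h5 : (tau a).testBit l = (tau b).testBit l := by
            rw [decide_eq_false (Ne.symm hlk)] at h4
            revert h4
            cases (tau a).testBit l <;> cases (tau b).testBit l <;> simp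
          rw [h5, sub_self]
          exact Ideal.zero_mem _
        · rw [Bool.not_eq_true] at hWl
          refine Ideal.sub_mem _ ?_ ?_
          · split_ifs
            · exact xx_mem_idl hWl
            · exact Ideal.zero_mem _
          · split_ifs
            · exact xx_mem_idl hWl
            · exact Ideal.zero_mem _
      have h4 := congrArg (fun n => n.testBit k) h3
      simp only [Nat.testBit_and, Nat.testBit_xor, Nat.testBit_two_pow, hW, Bool.and_true,
        decide_true] at h4
      have e3 := eq_neg_of_add_eq_zero_left e1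
      have e4 : ((if (tau a).testBit k then xx k else 0) -
          (if (tau b).testBit k then xx k else 0)) ∈ idl W := by
        rw [e3]
        exact Ideal.neg_mem_iff _ |>.2 e2
      revert h4 e4
      cases (tau a).testBit k <;> cases (tau b).testBit k <;> simp
    · rw [Bool.not_eq_true] at hW
      exact xx_mem_idl hW
  · have : xx k = 0 := by
      unfold xx
      rw [dif_neg hk]
    rw [this]
    exact Ideal.zero_mem _

lemma leaf_var {W : ℕ} (h : leaf W = true) (s : GG) : qm II (X s) ∈ idl W := by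
  obtain ⟨k, rfl⟩ := v_surj s
  have := leaf_mem h k
  unfold xx at this
  rwa [dif_pos k.2] at this

/-! ### The table -/

/-- the coefficients -/
def gg (l : List ℕ) (n : ℕ) : ℤ := (l.getD n 0 : ℕ)

lemma gg_addL (a b : List ℕ) (n : ℕ) : gg (addL a b) n = gg a n + gg b n := by
  unfold gg
  rw [← Nat.cast_add]
  congr 1
  induction a generalizing b n with
  | nil => simp [addL]
  | cons x s ih =>
    cases b with
    | nil => simp [addL]
    | cons y t =>
      rw [addL]
      cases n with
      | zero => simp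
      | succ n => simpa using ih t n

/-- the family -/
noncomputable def J (i : ℕ) : Ideal AA := idl (node i).1

/-- the expected Hilbert function -/
def G (i : ℕ) : ℕ → ℤ := gg (node i).2.1

/-- consequences of the triangle check -/
lemma tri_spec {i a c w : ℕ} (h : tri (node i) (node a) (node c) w = true) :
    J a = J i ⊔ Ideal.span {xx w} ∧ (∀ b ∈ J c, xx w * b ∈ J i) ∧ G i 0 = G a 0 ∧
      ∀ n, G i (n + 1) = G a (n + 1) + G c n := by
  unfold tri at h
  simp only [Bool.and_eq_true, decide_eq_true_eq, beq_iff_eq, Bool.not_eq_true'] at h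
  obtain ⟨⟨⟨⟨h1, h2⟩, h3⟩, h4⟩, h5⟩ := h
  refine ⟨idl_sup h2 h3, idl_colon h1 h4, ?_, ?_⟩
  · unfold G
    rw [h5, gg_addL]
    simp [gg]
  · intro n
    unfold G
    rw [h5, gg_addL]
    simp [gg]

lemma ub : ∀ i < 492, ∀ n, hd (J i) n ≤ G i n := by
  intro i
  induction i using Nat.strong_induction_on with
  | _ i ih =>
    intro hi n
    have h1 := all_range check_down hi
    unfold down at h1
    rw [Bool.or_eq_true] at h1
    rcases h1 with h1 | h1
    · rw [Bool.and_eq_true, beq_iff_eq] at h1
      have h2 := hd_leaf (J := J i) (leaf_var h1.2) n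
      refine h2.trans ?_
      unfold G
      rw [h1.1]
      unfold gg
      rcases n with _ | n <;> simp
    · simp only [Bool.and_eq_true, decide_eq_true_eq] at h1
      obtain ⟨⟨h2, h3⟩, h4⟩ := h1
      obtain ⟨e1, e2, e3, e4⟩ := tri_spec h4
      rcases n with _ | n
      · have := hd_zero hom (idl_closed (node i).1) (xx_mem (node i).2.2.1.1)
        have h5 := ih _ h2 (by omega) 0
        rw [e1] at h5
        have h6 : hd (J i) 0 = hd (J i ⊔ Ideal.span {xx (node i).2.2.1.1}) 0 := this.symm
        rw [h6, e3]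
        exact h5
      · have h5 := hd_le_add hom (idl_closed (node i).1) (xx_mem (node i).2.2.1.1) e2 n
        have h6 := ih _ h2 (by omega) (n + 1)
        have h7 := ih _ h3 (by omega) n
        rw [e1] at h6
        rw [e4]
        exact h5.trans (add_le_add h6 h7)

lemma J_top : J 491 = ⊥ := by
  unfold J
  rw [check_top.1, idl, Ideal.span_eq_bot]
  rintro _ ⟨k, hk, rfl⟩
  have : ¬ k < 18 := by
    intro h
    rw [Nat.testBit_two_pow_sub_one] at hk
    simp [h] at hk
  unfold xx
  rw [dif_neg this]

/-! ### The points -/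

/-- the points -/
noncomputable def pp (j : Fin 161) (s : GG) : ℚ := (pt j (ve.symm s) : ℤ)

lemma pp_v (j : Fin 161) (k : Fin 18) : pp j (v k) = (pt j k : ℤ) := by
  unfold pp
  rw [← ve_apply, Equiv.symm_apply_apply]

lemma pp_ne (j : Fin 161) (k : Fin 18) : pp j (v k) ≠ 0 ↔ (fc j).testBit k = true := by
  have h := all_range (all_range check_supp j.2) k.2
  rw [beq_iff_eq] at h
  rw [pp_v, ← h, bne_iff_ne, Int.cast_ne_zero]

lemma list_sum_range {M : Type} [AddCommMonoid M] (f : ℕ → M) (n : ℕ) :
    ((List.range n).map f).sum = ∑ k ∈ Finset.range n, f k := by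
  rw [Finset.sum_range, ← List.sum_ofFn]
  congr 1
  apply List.ext_getElem <;> simp

lemma pp_lin (j : Fin 161) (e : Fin 7) :
    eval (pp j) (∑ k : Fin 18, if (tau e).testBit k then (X (v k) : MvPolynomial GG ℚ) else 0) =
      (e : ℕ) + 1 := by
  have h := all_range (all_range check_sum j.2) e.2
  rw [beq_iff_eq, list_sum_range, Finset.sum_range] at h
  rw [map_sum]
  have h2 := congrArg (fun z : ℤ => (z : ℚ)) h
  simp only [Int.cast_sum, Int.cast_add, Int.cast_natCast, Int.cast_one] at h2
  rw [← h2]
  refine Finset.sum_congr rfl fun k _ => ?_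
  split_ifs
  · rw [eval_X, pp_v]
  · simp

lemma subset_below {W k : ℕ} {l : ℕ} (hl : l < 18) (h1 : W.testBit l = true)
    (h2 : (m l &&& m k) = m l) (h3 : l ≠ k) (a : ℕ) (ha : (m l).testBit a = true) :
    (below W k).testBit a = true := by
  have key : ∀ L : List ℕ, l ∈ L → (L.foldr (fun l r => if W.testBit l &&
      (m l &&& m k) == m l && l != k then m l ||| r else r) 0).testBit a = true := by
    intro L
    induction L with
    | nil => intro h; exact absurd h (List.not_mem_nil)
    | cons x L ih =>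
      intro h
      rw [List.foldr_cons]
      rcases List.mem_cons.1 h with h | h
      · subst h
        rw [if_pos (by simp [h1, h2, h3]), Nat.testBit_or, ha, Bool.true_or]
      · split_ifs
        · rw [Nat.testBit_or, ih h, Bool.or_true]
        · exact ih h
  exact key _ (List.mem_range.2 hl)

lemma below_subset {W k : ℕ} (a : ℕ) (ha : (below W k).testBit a = true) :
    (m k).testBit a = true := by
  have key : ∀ L : List ℕ, (L.foldr (fun l r => if W.testBit l &&
      (m l &&& m k) == m l && l != k then m l ||| r else r) 0).testBit a = true →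
      (m k).testBit a = true := by
    intro L
    induction L with
    | nil => intro h; simp at h
    | cons x L ih =>
      intro h
      rw [List.foldr_cons] at h
      split_ifs at h with hc
      · rw [Nat.testBit_or, Bool.or_eq_true] at h
        rcases h with h | h
        · simp only [Bool.and_eq_true, beq_iff_eq] at hc
          have := hc.1.2
          rw [← this, Nat.testBit_and, Bool.and_eq_true] at h
          exact h.2
        · exact ih h
      · exact ih h
  exact key _ ha

/-- facets are nested -/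
lemma nested_of_subset (j : Fin 161) {S : Set (Set (Fin 7))}
    (hS : ∀ Y ∈ S, ∃ l : Fin 18, Y = st l ∧ (fc j).testBit l = true) :
    IsNested (fr (Fin 7)) GG S := by
  intro T hT hnt hpw
  rw [fr_closure]
  rintro ⟨k, hk⟩
  have hk' : st k = ⋃₀ T := hk
  have h := all_range (all_range check_nested j.2) k.2
  rw [bne_iff_ne] at h
  apply h
  have hsub : ∀ Y ∈ T, Y ⊆ st k := by
    intro Y hY
    rw [hk']
    exact subset_sUnion_of_mem hY
  have hne : ∀ Y ∈ T, Y ≠ st k := by
    intro Y hY e
    obtain ⟨Z, hZ, hZY⟩ := hnt.exists_ne Y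
    exact hpw hZ hY hZY (by rw [e]; exact hsub Z hZ)
  apply Nat.eq_of_testBit_eq
  intro a
  rw [Bool.eq_iff_iff]
  constructor
  · exact below_subset a
  · intro ha
    have ha7 : a < 7 := by
      by_contra h7
      rw [Nat.testBit_lt_two_pow ((m_lt k.2).trans_le (Nat.pow_le_pow_right (by norm_num)
        (not_lt.1 h7)))] at ha
      exact absurd ha (by simp)
    have h1 : (⟨a, ha7⟩ : Fin 7) ∈ ⋃₀ T := by
      rw [← hk']
      exact ha
    obtain ⟨Y, hY, hYa⟩ := h1
    obtain ⟨l, rfl, hl⟩ := hS Y (hT hY)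
    refine subset_below l.2 hl ?_ ?_ a hYa
    · have := hsub _ hY
      rwa [mk_subset, mk_st' l.2, mk_st' k.2] at this
    · intro e
      exact hne _ hY (by rw [e])

lemma fc_sep {i j : Fin 161} (h : i ≠ j) : ∃ k : Fin 18, (fc i).testBit k = true ∧
    (fc j).testBit k = false := by
  have h1 := all_range (all_range check_sep i.2) j.2
  simp only [Bool.or_eq_true, beq_iff_eq, bne_iff_ne, ne_eq] at h1
  rcases h1 with h1 | h1
  · exact absurd (Fin.ext h1) h
  · by_contra hc
    push Not at hc
    apply h1
    apply Nat.eq_of_testBit_eq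
    intro k
    rw [Nat.testBit_and]
    by_cases hk : k < 18
    · have h2 := hc ⟨k, hk⟩
      cases h3 : (fc i).testBit k
      · rfl
      · have h4 : (fc j).testBit k ≠ false := h2 h3
        revert h4
        cases (fc j).testBit k <;> simp
    · have h3 : (fc i).testBit k = false := by
        have h4 : fc i < 2 ^ 18 := fc_lt i.2
        exact Nat.testBit_lt_two_pow (h4.trans_le (Nat.pow_le_pow_right (by norm_num)
          (not_lt.1 hk)))
      rw [h3]
      rfl
where
  /-- facets have 18 bits -/
  fc_lt {i : ℕ} (hi : i < 161) : fc i < 2 ^ 18 := by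
    have : ((List.range 161).all fun i => decide (fc i < 2 ^ 18)) = true := by decide +kernel
    simpa using all_range this hi

theorem total : 161 ≤ ∑ n ∈ Finset.range 19, finrank ℚ (part II n) := by
  classical
  let sep : Fin 161 → MvPolynomial GG ℚ := fun j =>
    ∏ Y ∈ (Finset.univ.filter fun k : Fin 18 => (fc j).testBit k = true).map ⟨v, v_inj⟩, X Y
  refine lower_bound II_eq pp ?_ 19 sep ?_ ?_ ?_
  · rintro f (⟨S, hS, rfl⟩ | ⟨e, _, rfl⟩)
    · left
      refine ⟨_, mon_hom S, fun j => ?_⟩
      rw [map_prod]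
      by_contra hne
      have hne := Finset.prod_ne_zero_iff.1 hne
      apply hS
      apply nested_of_subset j
      rintro _ ⟨Y, hY, rfl⟩
      obtain ⟨l, rfl⟩ := v_surj Y
      refine ⟨l, rfl, ?_⟩
      have := hne _ hY
      rw [eval_X] at this
      exact (pp_ne j l).1 this
    · right
      rw [lin_eq]
      exact ⟨lin_hom e, _, fun j => pp_lin j e⟩
  · intro i
    refine ⟨_, ?_, mon_hom _⟩
    rw [Finset.card_map]
    exact (Finset.card_le_univ _).trans_lt (by simp)
  · intro i
    rw [map_prod, Finset.prod_ne_zero_iff]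
    intro Y hY
    rw [Finset.mem_map] at hY
    obtain ⟨k, hk, rfl⟩ := hY
    rw [eval_X]
    exact (pp_ne i k).2 (Finset.mem_filter.1 hk).2
  · intro i j hij
    obtain ⟨k, h1, h2⟩ := fc_sep hij
    rw [map_prod]
    apply Finset.prod_eq_zero (i := v k)
    · rw [Finset.mem_map]
      exact ⟨k, Finset.mem_filter.2 ⟨Finset.mem_univ _, h1⟩, rfl⟩
    · rw [eval_X]
      by_contra h3
      have := (pp_ne j k).1 h3
      rw [h2] at this
      exact absurd this (by simp)

/-! ### Exactness -/

lemma G_top (n : ℕ) : G 491 n = gg [1, 11, 39, 59, 39, 11, 1] n := by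
  unfold G
  rw [check_top.2]

theorem exact_top : ∀ n, hd (J 491) n = G 491 n := by
  have h1 : ∀ n, hd (J 491) n = finrank ℚ (part II n) := by
    intro n
    rw [J_top, hd_bot]
  have h2 : ∀ n, hd (J 491) n ≤ G 491 n := ub 491 (by norm_num)
  have h3 : ∑ n ∈ Finset.range 19, hd (J 491) n = ∑ n ∈ Finset.range 19, G 491 n := by
    apply le_antisymm (Finset.sum_le_sum fun n _ => h2 n)
    have h4 : ∑ n ∈ Finset.range 19, G 491 n = 161 := by
      rw [Finset.sum_congr rfl fun n _ => G_top n]
      decide
    rw [h4, Finset.sum_congr rfl fun n _ => h1 n]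
    have := total
    exact_mod_cast this
  intro n
  by_cases hn : n < 19
  · exact (Finset.sum_eq_sum_iff_of_le fun n _ => h2 n).1 h3 n (Finset.mem_range.2 hn)
  · apply le_antisymm (h2 n)
    have h5 : G 491 n = 0 := by
      rw [G_top]
      unfold gg
      rw [List.getD_eq_default _ _ (by simp; omega)]
      rfl
    rw [h5]
    exact hd_nonneg _ _

theorem exact_all : ∀ i < 492, ∀ n, hd (J i) n = G i n := by
  have key : ∀ d i, i + d = 491 → ∀ n, hd (J i) n = G i n := by
    intro d
    induction d using Nat.strong_induction_on with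
    | _ d ih =>
      intro i hi
      by_cases h : i = 491
      · subst h
        exact exact_top
      · have h1 := all_range check_up (show i < 492 by omega)
        unfold up at h1
        simp only [Bool.or_eq_true, beq_iff_eq, h, false_or, Bool.and_eq_true,
          decide_eq_true_eq] at h1
        obtain ⟨⟨⟨h2, h3⟩, h4⟩, h5⟩ := h1
        obtain ⟨e1, e2, e3, e4⟩ := tri_spec h5
        have h6 := exact_step hom (idl_closed (node (node i).2.2.2.2.1).1)
          (xx_mem (node i).2.2.2.1) e2 (G (node i).2.2.2.2.1) (G i) (G (node i).2.2.2.2.2) e3 e4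
          (ih (491 - (node i).2.2.2.2.1) (by omega) _ (by omega))
          (by
            have := ub i (by omega)
            rw [e1] at this
            exact this) (ub _ h4)
        rw [e1]
        exact h6.1
  intro i hi
  exact key (491 - i) i (by omega)

lemma step_all {i : ℕ} (hi : i < 492) (h : i ≠ 491) : ∃ j c w, i < j ∧ j < 492 ∧ c < 492 ∧
    J i = J j ⊔ Ideal.span {xx w} ∧ ∀ a, a ∈ J c ↔ xx w * a ∈ J j := by
  have h1 := all_range check_up hi
  unfold up at h1
  simp only [Bool.or_eq_true, beq_iff_eq, h, false_or, Bool.and_eq_true,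
    decide_eq_true_eq] at h1
  obtain ⟨⟨⟨h2, h3⟩, h4⟩, h5⟩ := h1
  obtain ⟨e1, e2, e3, e4⟩ := tri_spec h5
  have h6 := exact_step hom (idl_closed (node (node i).2.2.2.2.1).1)
    (xx_mem (node i).2.2.2.1) e2 (G (node i).2.2.2.2.1) (G i) (G (node i).2.2.2.2.2) e3 e4
    (exact_all _ h3)
    (by
      have := ub i (by omega)
      rw [e1] at this
      exact this) (ub _ h4)
  exact ⟨_, _, _, h2, h3, h4, e1, h6.2⟩

/-- the filtration -/
noncomputable def filt : Filt AA (linData hom) where
  T := Fin 492
  I i := J i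
  rk i := 491 - i
  step := by
    intro i
    by_cases h : (i : ℕ) = 491
    · left
      show J i = ⊥
      rw [h, J_top]
    · right
      obtain ⟨j, c, w, h1, h2, h3, h4, h5⟩ := step_all i.2 h
      refine ⟨⟨j, h2⟩, ⟨c, h3⟩, xx w, ?_, xx_mem w, h4, h5⟩
      show 491 - j < 491 - (i : ℕ)
      omega

/-- **The Chow ring is Koszul.** -/
theorem koszul : IsKoszulChow (fr (Fin 7)) GG := by
  have h1 := hasLinearResolution filt (⟨0, by norm_num⟩ : Fin 492)
  have h2 : filt.I (⟨0, by norm_num⟩ : Fin 492) =
      Ideal.span (chowPart (fr (Fin 7)) GG 1 : Set (ChowRing (fr (Fin 7)) GG)) := by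
    have hleaf : leaf (node 0).1 = true := by decide +kernel
    apply le_antisymm
    · apply Ideal.span_mono
      rintro _ ⟨k, _, rfl⟩
      exact xx_mem k
    · apply Ideal.span_le.2
      intro a ha
      have h3 : a ∈ part II (0 + 1) := ha
      exact (Ideal.span_le.2 (by rintro _ ⟨s, rfl⟩; exact leaf_var hleaf s) :
        Ideal.span _ ≤ J 0) (part_eq_span 0 h3)
  rw [h2] at h1
  exact h1

/-- **The Hilbert function.** -/
theorem hilbert (n : ℕ) : finrank ℚ (chowPart (fr (Fin 7)) GG n) =
    ([1, 11, 39, 59, 39, 11, 1] : List ℕ).getD n 0 := by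
  have h := exact_top n
  rw [J_top, hd_bot, G_top] at h
  unfold gg at h
  exact_mod_cast h

end Pool.Agent.Q164.KZ.Tab
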