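import Mathlib

/-!
# A non-real zero
-/

set_option autoImplicit false

namespace Pool.Agent.Q164.KZ

theorem exists_cubic_root : ∃ s : ℂ, s.im ≠ 0 ∧ 1 + 5 * s + 4 * s ^ 2 + s ^ 3 = 0 := by
  obtain ⟨r, hr, hr0⟩ : ∃ r ∈ Set.Icc (-1 / 4 : ℝ) 0, 1 + 5 * r + 4 * r ^ 2 + r ^ 3 = 0 := by
    have hc : ContinuousOn (fun r : ℝ => 1 + 5 * r + 4 * r ^ 2 + r ^ 3) (Set.Icc (-1 / 4) 0) := by
      fun_prop
    have := intermediate_value_Icc (by norm_num : (-1 / 4 : ℝ) ≤ 0) hc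
    have h0 : (0 : ℝ) ∈ Set.Icc (1 + 5 * (-1 / 4 : ℝ) + 4 * (-1 / 4) ^ 2 + (-1 / 4) ^ 3)
        (1 + 5 * (0 : ℝ) + 4 * 0 ^ 2 + 0 ^ 3) := by
      constructor <;> norm_num
    exact this h0
  have hD : 0 < (3 * r + 2) * (r + 2) := by
    have := hr.1
    apply mul_pos <;> linarith
  set w := Real.sqrt ((3 * r + 2) * (r + 2)) with hw
  have hw2 : w ^ 2 = (3 * r + 2) * (r + 2) := Real.sq_sqrt hD.le
  have hwpos : 0 < w := Real.sqrt_pos.2 hD
  refine ⟨⟨-(4 + r) / 2, w / 2⟩, ?_, ?_⟩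
  · show w / 2 ≠ 0
    positivity
  · set s : ℂ := ⟨-(4 + r) / 2, w / 2⟩ with hs
    have h1 : s = -(4 + (r : ℂ)) / 2 + (w / 2 : ℂ) * Complex.I := by
      apply Complex.ext <;> simp [hs]
    have h2 : s ^ 2 + (4 + r) * s + (5 + 4 * r + r ^ 2) = 0 := by
      rw [h1]
      have h3 : (w : ℂ) ^ 2 = (3 * r + 2) * (r + 2) := by
        rw [← Complex.ofReal_pow, hw2]
        push_cast
        ring
      have h4 := Complex.I_sq
      linear_combination (1 / 4) * (w : ℂ) ^ 2 * h4 - (1 / 4) * h3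
    have h5 : (1 : ℂ) + 5 * r + 4 * r ^ 2 + r ^ 3 = 0 := by
      exact_mod_cast congrArg (fun x : ℝ => (x : ℂ)) hr0
    linear_combination (s - r) * h2 + h5

theorem exists_root : ∃ z : ℂ, z.im ≠ 0 ∧
    1 + 11 * z + 39 * z ^ 2 + 59 * z ^ 3 + 39 * z ^ 4 + 11 * z ^ 5 + z ^ 6 = 0 := by
  obtain ⟨s, hs, hq⟩ := exists_cubic_root
  have hs0 : s ≠ 0 := by
    rintro rfl
    exact hs rfl
  obtain ⟨w, hw⟩ := IsAlgClosed.exists_pow_nat_eq (1 - 4 * s) (n := 2) (by norm_num)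
  set z : ℂ := (1 - 2 * s + w) / (2 * s) with hz
  have h2z : 2 * s * z = 1 - 2 * s + w := by
    rw [hz]
    field_simp
  have h1 : s * (1 + z) ^ 2 = z := by
    have h4 : 4 * s * (s * (1 + z) ^ 2 - z) = 0 := by
      have h5 : (2 * s * z + 2 * s - 1) ^ 2 = w ^ 2 := by
        rw [h2z]; ring
      linear_combination h5 + hw
    have h6 : s * (1 + z) ^ 2 - z = 0 := by
      rcases mul_eq_zero.1 h4 with h | h
      · exact absurd h (by simpa using hs0)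
      · exact h
    linear_combination h6
  refine ⟨z, ?_, ?_⟩
  · intro him
    have h3 : z = (z.re : ℂ) := by
      apply Complex.ext <;> simp [him]
    rw [h3] at h1
    have h4 : s * (((1 + z.re) ^ 2 : ℝ) : ℂ) = (z.re : ℂ) := by
      push_cast
      exact h1
    have h5 := congrArg Complex.im h4
    have h6 := congrArg Complex.re h4
    rw [Complex.im_mul_ofReal, Complex.ofReal_im] at h5
    rw [Complex.re_mul_ofReal, Complex.ofReal_re] at h6
    rcases mul_eq_zero.1 h5 with h | h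
    · exact hs h
    · rw [h, mul_zero] at h6
      rw [← h6] at h
      norm_num at h
  · have h7 : 1 + 11 * z + 39 * z ^ 2 + 59 * z ^ 3 + 39 * z ^ 4 + 11 * z ^ 5 + z ^ 6 =
        ((1 + z) ^ 2) ^ 3 + 5 * z * ((1 + z) ^ 2) ^ 2 + 4 * z ^ 2 * (1 + z) ^ 2 + z ^ 3 := by ring
    rw [h7]
    set y := (1 + z) ^ 2 with hy
    rw [← h1]
    linear_combination y ^ 3 * hq

end Pool.Agent.Q164.KZ
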